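import Pool.Agent.R301.CT.Stm

/-! Project CT (helper301), piece AM: arithmetic-geometric mean for lists. -/

namespace Pool.Agent.R301.CT

open Finset

namespace Am

lemma one_sub_ge {y : ℝ} (h0 : 0 ≤ y) (h1 : y ≤ 1 / 2) : Real.exp (-(y + y ^ 2)) ≤ 1 - y := by
  have hz : 0 ≤ y + y ^ 2 := by positivity
  have h2 := Real.quadratic_le_exp_of_nonneg hz
  have e : (1 + (y + y ^ 2) + (y + y ^ 2) ^ 2 / 2) * (1 - y) =
      1 + y ^ 2 / 2 * (1 - y - y ^ 2 - y ^ 3) := by ring
  have hy2 : y ^ 2 ≤ y / 2 := by nlinarith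
  have hy3 : y ^ 3 ≤ y / 4 := by
    have : y ^ 3 = y * y ^ 2 := by ring
    rw [this]
    nlinarith
  have h3 : 0 ≤ 1 - y - y ^ 2 - y ^ 3 := by linarith
  have h4 : 1 ≤ Real.exp (y + y ^ 2) * (1 - y) := by
    have h5 : 0 ≤ y ^ 2 / 2 * (1 - y - y ^ 2 - y ^ 3) := mul_nonneg (by positivity) h3
    calc (1 : ℝ) ≤ (1 + (y + y ^ 2) + (y + y ^ 2) ^ 2 / 2) * (1 - y) := by rw [e]; linarith
      _ ≤ _ := mul_le_mul_of_nonneg_right h2 (by linarith)
  have h6 : Real.exp (-(y + y ^ 2)) * Real.exp (y + y ^ 2) = 1 := by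
    rw [← Real.exp_add]; simp
  nlinarith [Real.exp_pos (-(y + y ^ 2))]

lemma step {a t : ℝ} (ht : 2 ≤ t) (ha : t < a) :
    a * Real.exp (-((1 + 1 / t) / a)) ≤ a - 1 := by
  have ha0 : 0 < a := by linarith
  have ht0 : 0 < t := by linarith
  have hy : 0 ≤ 1 / a := by positivity
  have hy1 : 1 / a ≤ 1 / 2 := one_div_le_one_div_of_le (by norm_num) (by linarith)
  have h1 := one_sub_ge hy hy1
  have h2 : 1 / a ≤ 1 / t := one_div_le_one_div_of_le ht0 ha.le
  have h3 : Real.exp (-((1 + 1 / t) / a)) ≤ Real.exp (-(1 / a + (1 / a) ^ 2)) := by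
    apply Real.exp_le_exp.2
    have : (1 + 1 / t) / a = 1 / a + 1 / t * (1 / a) := by ring
    rw [this]
    nlinarith
  have h4 : a * (1 - 1 / a) = a - 1 := by field_simp
  rw [← h4]
  exact mul_le_mul_of_nonneg_left (h3.trans h1) ha0.le

end Am

theorem am : S_AM := by
  classical
  intro V _ N q L t b ht hL hB hq
  set B := N.filter (fun u => ((L u).card : ℝ) ≤ t) with hBdef
  have hb0 : 0 ≤ b := le_trans (Nat.cast_nonneg _) hB
  have ht0 : 0 < t := by linarith
  have htb : 0 ≤ t * b := by positivity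
  have hm0 : 0 < (q : ℝ) - t * b := by linarith
  have hq0 : (0 : ℝ) < q := by linarith
  set m : ℝ := (q : ℝ) - t * b with hm
  set A : ℝ := (1 + 1 / t) * N.card with hA
  have hA0 : 0 ≤ A := by positivity
  set Q : Finset (Fin q) := univ \ B.biUnion L with hQ
  have hQm : m ≤ (Q.card : ℝ) := by
    have h1 : (B.biUnion L).card ≤ ∑ u ∈ B, (L u).card := card_biUnion_le
    have h1' : ((B.biUnion L).card : ℝ) ≤ ∑ u ∈ B, ((L u).card : ℝ) := by exact_mod_cast h1
    have h2 : ∑ u ∈ B, ((L u).card : ℝ) ≤ B.card * t := by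
      calc ∑ u ∈ B, ((L u).card : ℝ) ≤ ∑ u ∈ B, t := sum_le_sum (fun u hu => (mem_filter.1 hu).2)
        _ = B.card * t := by rw [sum_const, nsmul_eq_mul]
    have h3 : Q.card + (B.biUnion L).card = q := by
      rw [hQ, card_sdiff_add_card_eq_card (subset_univ _), card_univ, Fintype.card_fin]
    have h3' : (Q.card : ℝ) + ((B.biUnion L).card : ℝ) = q := by exact_mod_cast h3
    have h4 : (B.card : ℝ) * t ≤ b * t := mul_le_mul_of_nonneg_right hB ht0.le
    rw [hm]
    linarith
  have hk0 : (0 : ℝ) < Q.card := lt_of_lt_of_le hm0 hQm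
  set P : ℝ := ∏ u ∈ N, ((L u).card : ℝ) with hP
  have hP0 : 0 ≤ P := prod_nonneg fun u _ => Nat.cast_nonneg _
  set x : Fin q → ℝ := fun c => ∑ u ∈ N, if c ∈ L u then (1 + 1 / t) / (L u).card else 0 with hx
  have key : ∀ c ∈ Q, P * Real.exp (-x c) ≤ ∏ u ∈ N, (((L u).erase c).card : ℝ) := by
    intro c hc
    rw [hx]
    simp only
    rw [← sum_neg_distrib, Real.exp_sum, hP, ← prod_mul_distrib]
    apply prod_le_prod
    · intro u _
      positivity
    · intro u hu
      by_cases hcu : c ∈ L u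
      · have huB : ¬ ((L u).card : ℝ) ≤ t := by
          intro h
          have h1 : u ∈ B := mem_filter.2 ⟨hu, h⟩
          exact (mem_sdiff.1 hc).2 (mem_biUnion.2 ⟨u, h1, hcu⟩)
        rw [if_pos hcu]
        have h2 := Am.step ht (lt_of_not_ge huB)
        refine h2.trans (le_of_eq ?_)
        rw [card_erase_of_mem hcu, Nat.cast_sub (card_pos.2 ⟨c, hcu⟩)]
        simp
      · rw [if_neg hcu, erase_eq_of_notMem hcu]
        simp
  have hsx : ∑ c ∈ Q, x c ≤ A := by
    have hnn : ∀ c, 0 ≤ x c := fun c => sum_nonneg fun u _ => by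
      split_ifs
      · positivity
      · exact le_refl _
    calc ∑ c ∈ Q, x c ≤ ∑ c, x c :=
          sum_le_sum_of_subset_of_nonneg (subset_univ _) (fun c _ _ => hnn c)
      _ = ∑ u ∈ N, ∑ c, if c ∈ L u then (1 + 1 / t) / (L u).card else 0 := by
          rw [hx, sum_comm]
      _ = ∑ u ∈ N, (1 + 1 / t) := by
          apply sum_congr rfl
          intro u hu
          rw [← sum_filter, sum_const, nsmul_eq_mul]
          have h1 : (univ.filter (fun c => c ∈ L u)) = L u := by
            ext c; simp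
          rw [h1]
          have h2 : (0 : ℝ) < (L u).card := by exact_mod_cast card_pos.2 (hL u hu)
          field_simp
      _ = A := by rw [sum_const, nsmul_eq_mul, hA, mul_comm]
  have hexp : (Q.card : ℝ) * Real.exp (-(A / Q.card)) ≤ ∑ c ∈ Q, Real.exp (-x c) := by
    have h1 : ∀ c ∈ Q, Real.exp (-(A / Q.card)) * (1 + A / Q.card - x c) ≤ Real.exp (-x c) := by
      intro c _
      have h2 := Real.add_one_le_exp (A / Q.card - x c)
      have h3 : Real.exp (-x c) = Real.exp (-(A / Q.card)) * Real.exp (A / Q.card - x c) := by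
        rw [← Real.exp_add]
        congr 1
        ring
      rw [h3]
      exact mul_le_mul_of_nonneg_left (by linarith) (Real.exp_pos _).le
    refine le_trans ?_ (sum_le_sum h1)
    rw [← mul_sum, sum_sub_distrib, sum_const, nsmul_eq_mul]
    have h4 : (Q.card : ℝ) * (1 + A / Q.card) = Q.card + A := by field_simp
    rw [h4, mul_comm]
    exact mul_le_mul_of_nonneg_left (by linarith) (Real.exp_pos _).le
  have hmono : m * Real.exp (-(A / m)) ≤ (Q.card : ℝ) * Real.exp (-(A / Q.card)) := by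
    apply mul_le_mul hQm _ (Real.exp_pos _).le hk0.le
    apply Real.exp_le_exp.2
    apply neg_le_neg
    exact div_le_div_of_nonneg_left hA0 hm0 hQm
  calc m / q * Real.exp (-(A / m)) * (q * P) = P * (m * Real.exp (-(A / m))) := by
        field_simp
    _ ≤ P * ∑ c ∈ Q, Real.exp (-x c) := mul_le_mul_of_nonneg_left (hmono.trans hexp) hP0
    _ = ∑ c ∈ Q, P * Real.exp (-x c) := mul_sum _ _ _
    _ ≤ ∑ c ∈ Q, ∏ u ∈ N, (((L u).erase c).card : ℝ) := sum_le_sum key
    _ ≤ ∑ c : Fin q, ∏ u ∈ N, (((L u).erase c).card : ℝ) :=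
        sum_le_sum_of_subset_of_nonneg (subset_univ _)
          (fun c _ _ => prod_nonneg fun u _ => Nat.cast_nonneg _)

end Pool.Agent.R301.CT
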