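import Pool.Agent.R301.CT.Stm

/-!
# Few colourings have a short list at a vertex
-/

namespace Pool.Agent.R301.CT

open Finset

theorem bad : S_BAD := by
  classical
  intro V _ _ G q S u t hu ht
  have hav : ∀ (f : V → Fin q) (c : Fin q),
      av G q S (Function.update f u c) u = av G q S f u := by
    intro f c
    ext x
    simp only [av, mem_filter, mem_univ, true_and]
    refine forall_congr' fun w => forall_congr' fun hw => ?_
    have hwu : w ≠ u := by
      rintro rfl
      simp only [nb, mem_filter] at hw
      exact G.ne_of_adj hw.2 rfl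
    rw [Function.update_of_ne hwu]
  have hcard : (((Pr G q S).filter (fun f => ((av G q S f u).card : ℝ) ≤ t)) ×ˢ
      (univ : Finset (Fin q))).card ≤
      (((Pr G q (S.erase u)).filter (fun f => ((av G q S f u).card : ℝ) ≤ t)).sigma
        (fun h => av G q S h u)).card := by
    refine Finset.card_le_card_of_injOn
      (fun p => ⟨Function.update p.1 u p.2, p.1 u⟩) ?_ ?_
    · intro p hp
      rw [Finset.mem_coe, Finset.mem_product, Finset.mem_filter] at hp
      obtain ⟨⟨hp1, hp2⟩, -⟩ := hp
      rw [Finset.mem_coe, Finset.mem_sigma, Finset.mem_filter]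
      simp only [Pr, mem_filter, mem_univ, true_and] at hp1
      refine ⟨⟨?_, ?_⟩, ?_⟩
      · simp only [Pr, mem_filter, mem_univ, true_and]
        intro x hx w hw hxw
        rw [Finset.mem_erase] at hx hw
        rw [Function.update_of_ne hx.1, Function.update_of_ne hw.1]
        exact hp1 x hx.2 w hw.2 hxw
      · change ((av G q S (Function.update p.1 u p.2) u).card : ℝ) ≤ t
        rw [hav]
        exact hp2
      · change p.1 u ∈ av G q S (Function.update p.1 u p.2) u
        rw [hav]
        simp only [av, nb, mem_filter, mem_univ, true_and]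
        intro w hw h
        exact hp1 u hu w hw.1 hw.2 h.symm
    · rintro ⟨f, c⟩ - ⟨f', c'⟩ - h
      simp only [Sigma.mk.injEq, heq_eq_eq] at h
      obtain ⟨h1, h2⟩ := h
      have h3 : c = c' := by
        have := congrFun h1 u
        simpa using this
      have h4 : f = f' := by
        funext x
        by_cases hx : x = u
        · rw [hx, h2]
        · have := congrFun h1 x
          rwa [Function.update_of_ne hx, Function.update_of_ne hx] at this
      rw [h3, h4]
  rw [Finset.card_product, Finset.card_univ, Fintype.card_fin, Finset.card_sigma] at hcard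
  have h1 : ((∑ h ∈ (Pr G q (S.erase u)).filter (fun f => ((av G q S f u).card : ℝ) ≤ t),
      (av G q S h u).card : ℕ) : ℝ) ≤ t * ((Pr G q (S.erase u)).card : ℝ) := by
    rw [Nat.cast_sum]
    calc ∑ h ∈ (Pr G q (S.erase u)).filter (fun f => ((av G q S f u).card : ℝ) ≤ t),
          ((av G q S h u).card : ℝ)
        ≤ ∑ _h ∈ (Pr G q (S.erase u)).filter (fun f => ((av G q S f u).card : ℝ) ≤ t), t :=
          Finset.sum_le_sum fun h hh => (Finset.mem_filter.1 hh).2
      _ = (((Pr G q (S.erase u)).filter
            (fun f => ((av G q S f u).card : ℝ) ≤ t)).card : ℝ) * t := by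
          rw [Finset.sum_const, nsmul_eq_mul]
      _ ≤ ((Pr G q (S.erase u)).card : ℝ) * t := by
          refine mul_le_mul_of_nonneg_right ?_ ht
          exact_mod_cast Finset.card_filter_le _ _
      _ = t * ((Pr G q (S.erase u)).card : ℝ) := mul_comm _ _
  have h2 : (q : ℝ) * (((Pr G q S).filter (fun f => ((av G q S f u).card : ℝ) ≤ t)).card : ℝ) ≤
      ((∑ h ∈ (Pr G q (S.erase u)).filter (fun f => ((av G q S f u).card : ℝ) ≤ t),
      (av G q S h u).card : ℕ) : ℝ) := by
    rw [mul_comm]
    exact_mod_cast hcard
  exact h2.trans h1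

end Pool.Agent.R301.CT
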