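import Pool.Agent.R301.CT.Main

/-!
# Counting colourings of triangle-free graphs of small chromatic number: corollaries
-/

namespace Pool.Agent.R301.CT

open Finset Filter

/-- `d / (2 log d) ≤ q` implies `log q ≥ (1 - c) log d` for large `d` -/
theorem logq (c : ℝ) (hc : 0 < c) : ∃ d0 : ℕ, ∀ d : ℕ, d0 ≤ d → ∀ q : ℕ,
    (d : ℝ) / (2 * Real.log d) ≤ q → (d : ℝ) ^ (1 - c) ≤ q := by
  have h1 : Tendsto (fun x : ℝ => Real.log x / x ^ c) atTop (nhds 0) := by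
    have := (isLittleO_log_rpow_atTop hc).tendsto_div_nhds_zero
    exact this
  have h2 : ∀ᶠ x : ℝ in atTop, Real.log x / x ^ c < 1 / 2 :=
    h1.eventually (gt_mem_nhds (by norm_num))
  have h3 : ∀ᶠ d : ℕ in atTop, Real.log (d : ℝ) / (d : ℝ) ^ c < 1 / 2 :=
    tendsto_natCast_atTop_atTop.eventually h2
  obtain ⟨d0, h0⟩ := eventually_atTop.1 h3
  refine ⟨d0 + 2, fun d hd q hq => ?_⟩
  have hd2 : (2 : ℝ) ≤ d := by exact_mod_cast (by omega : 2 ≤ d)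
  have hlog : 0 < Real.log d := Real.log_pos (by linarith)
  have hp : 0 < (d : ℝ) ^ c := Real.rpow_pos_of_pos (by linarith) c
  have h4 := h0 d (by omega)
  rw [div_lt_iff₀ hp] at h4
  refine le_trans ?_ hq
  rw [le_div_iff₀ (by positivity)]
  have h5 : (d : ℝ) ^ (1 - c) * (d : ℝ) ^ c = d := by
    rw [← Real.rpow_add (by linarith)]
    simp
  have h6 : 0 < (d : ℝ) ^ (1 - c) := Real.rpow_pos_of_pos (by linarith) _
  nlinarith [mul_le_mul_of_nonneg_left h4.le h6.le]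

/-- the form of Q1 -/
theorem qform (hI : S_IND) (hC : S_CNT) (hN : S_NUM) (hP : S_PAL) (hE : S_EDG) (hF : S_FN)
    (δ ε : ℝ) (hδ : 0 < δ) (hδ1 : δ < 1 / 2) (hε : 0 < ε) (hε1 : ε ≤ 1 / 2) :
    ∃ Δ0 : ℕ, ∀ Δ : ℕ, Δ0 ≤ Δ → ∀ (V : Type) [Fintype V] (G : SimpleGraph V) (r : ℕ),
      G.CliqueFree 3 → G.Colorable r → (r : ℝ) ≤ (Δ : ℝ) ^ (1 / 2 - δ) → ∀ q : ℕ,
      (Δ : ℝ) / (2 * Real.log Δ) ≤ q →
      (1 - 1 / (q : ℝ)) ^ (Nat.card G.edgeSet) * ((1 - ε) * q) ^ (Nat.card V) ≤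
        (Nat.card (G.Coloring (Fin q)) : ℝ) := by
  obtain ⟨q0, h0⟩ := half hI hC hN hP hE hF (δ / 4) ε (by linarith) (by linarith) hε hε1
  obtain ⟨d0, h1⟩ := logq (δ / 2) (by linarith)
  refine ⟨d0 + (q0 + 2) ^ 2, fun Δ hΔ V _ G r hG hr hrq q hq => ?_⟩
  have hq1 := h1 Δ (by omega) q hq
  have hΔ1 : (1 : ℝ) ≤ Δ := by
    exact_mod_cast (by nlinarith [Nat.zero_le q0] : 1 ≤ Δ)
  have hΔq : (((q0 + 2 : ℕ) : ℝ)) ^ (2 : ℝ) ≤ Δ := by
    have : (q0 + 2) ^ 2 ≤ Δ := by omega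
    have h2 : (((q0 + 2) ^ 2 : ℕ) : ℝ) ≤ Δ := by exact_mod_cast this
    rw [show (2 : ℝ) = ((2 : ℕ) : ℝ) by norm_num, Real.rpow_natCast]
    push_cast at h2 ⊢
    exact h2
  have hqq0 : ((q0 + 2 : ℕ) : ℝ) ≤ q := by
    calc ((q0 + 2 : ℕ) : ℝ) = (((q0 + 2 : ℕ) : ℝ) ^ (2 : ℝ)) ^ ((1 : ℝ) / 2) := by
          rw [← Real.rpow_mul (by positivity)]; norm_num
      _ ≤ (Δ : ℝ) ^ ((1 : ℝ) / 2) := Real.rpow_le_rpow (by positivity) hΔq (by norm_num)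
      _ ≤ (Δ : ℝ) ^ (1 - δ / 2) := Real.rpow_le_rpow_of_exponent_le hΔ1 (by linarith)
      _ ≤ q := hq1
  have hqN : q0 + 2 ≤ q := by exact_mod_cast hqq0
  have hcol : (G.induce (Hi G q (δ / 4))).Colorable r := by
    obtain ⟨c⟩ := hr
    exact ⟨c.comp (SimpleGraph.Embedding.induce (G := G) (Hi G q (δ / 4))).toHom⟩
  refine h0 q (by omega) V G r hG hcol (hrq.trans ?_)
  calc (Δ : ℝ) ^ (1 / 2 - δ) ≤ (Δ : ℝ) ^ ((1 - δ / 2) * (1 / 2 - 2 * (δ / 4))) :=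
        Real.rpow_le_rpow_of_exponent_le hΔ1 (by nlinarith)
    _ = ((Δ : ℝ) ^ (1 - δ / 2)) ^ (1 / 2 - 2 * (δ / 4)) := Real.rpow_mul (by linarith) _ _
    _ ≤ (q : ℝ) ^ (1 / 2 - 2 * (δ / 4)) :=
        Real.rpow_le_rpow (Real.rpow_nonneg (by linarith) _) hq1 (by linarith)

/-- graphs of minimum degree at least `d` -/
theorem mindeg (hI : S_IND) (hC : S_CNT) (hN : S_NUM) (hP : S_PAL) (hE : S_EDG) (hF : S_FN)
    (κ δ ε : ℝ) (hκ : 1 / 2 ≤ κ) (hκ1 : κ ≤ 1) (hδ : 0 < δ) (hδ1 : δ < 1 / 2) (hε : 0 < ε)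
    (hε1 : ε ≤ 1 / 2) :
    ∃ d0 : ℕ, ∀ d : ℕ, d0 ≤ d → ∀ (V : Type) [Fintype V] (G : SimpleGraph V) (r : ℕ),
      G.CliqueFree 3 → (∀ v, d ≤ Nat.card (G.neighborSet v)) → G.Colorable r →
      (r : ℝ) ≤ (d : ℝ) ^ (1 / (2 * κ) - δ) → ∀ q : ℕ,
      (d : ℝ) / (2 * Real.log d) ≤ q → (q : ℝ) ≤ κ * d / Real.log d →
      (1 - 1 / (q : ℝ)) ^ (Nat.card G.edgeSet) * ((1 - ε) * q) ^ (Nat.card V) ≤
        (Nat.card (G.Coloring (Fin q)) : ℝ) := by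
  obtain ⟨q0, h0⟩ := general hI hC hN hP hE hF (δ / 2) ε (by linarith) (by linarith) hε hε1
  obtain ⟨d0, h1⟩ := logq (δ / 2) (by linarith)
  refine ⟨d0 + (q0 + 3) ^ 2, fun d hd V _ G r hG hdeg hr hrq q hq hqu => ?_⟩
  classical
  have hq1 := h1 d (by omega) q hq
  have hd3N : 3 ≤ d := by nlinarith [Nat.zero_le q0]
  have hd3 : (3 : ℝ) ≤ d := by exact_mod_cast hd3N
  have hd1 : (1 : ℝ) ≤ d := by linarith
  have hdq : (((q0 + 2 : ℕ) : ℝ)) ^ (2 : ℝ) ≤ d := by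
    have : (q0 + 2) ^ 2 ≤ d := by nlinarith [Nat.zero_le q0]
    have h2 : (((q0 + 2) ^ 2 : ℕ) : ℝ) ≤ d := by exact_mod_cast this
    rw [show (2 : ℝ) = ((2 : ℕ) : ℝ) by norm_num, Real.rpow_natCast]
    push_cast at h2 ⊢
    exact h2
  have hqq0 : ((q0 + 2 : ℕ) : ℝ) ≤ q := by
    calc ((q0 + 2 : ℕ) : ℝ) = (((q0 + 2 : ℕ) : ℝ) ^ (2 : ℝ)) ^ ((1 : ℝ) / 2) := by
          rw [← Real.rpow_mul (by positivity)]; norm_num
      _ ≤ (d : ℝ) ^ ((1 : ℝ) / 2) := Real.rpow_le_rpow (by positivity) hdq (by norm_num)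
      _ ≤ (d : ℝ) ^ (1 - δ / 2) := Real.rpow_le_rpow_of_exponent_le hd1 (by linarith)
      _ ≤ q := hq1
  have hqN : q0 + 2 ≤ q := by exact_mod_cast hqq0
  have hqr : (1 : ℝ) ≤ q := by exact_mod_cast (by omega : 1 ≤ q)
  have hld : 1 ≤ Real.log d := by
    rw [Real.le_log_iff_exp_le (by linarith)]
    exact (Real.exp_one_lt_d9.le.trans (by norm_num)).trans hd3
  have hqd : (q : ℝ) ≤ d := by
    refine hqu.trans ?_
    rw [div_le_iff₀ (by linarith)]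
    nlinarith
  have hlq0 : 0 ≤ Real.log q := Real.log_nonneg hqr
  have hlqd : Real.log q ≤ Real.log d := Real.log_le_log (by linarith) hqd
  have hqlog : (q : ℝ) * Real.log d ≤ κ * d := by
    rwa [le_div_iff₀ (by linarith)] at hqu
  have hcol : (G.induce (Hi G q (δ / 2))).Colorable r := by
    obtain ⟨c⟩ := hr
    exact ⟨c.comp (SimpleGraph.Embedding.induce (G := G) (Hi G q (δ / 2))).toHom⟩
  have hk2 : 1 / (2 * κ) ≤ 1 := by
    rw [div_le_one (by linarith)]; linarith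
  refine h0 q (by omega) V G r hG hcol (hrq.trans ?_) ?_
  · calc (d : ℝ) ^ (1 / (2 * κ) - δ) ≤ (d : ℝ) ^ ((1 - δ / 2) * (1 - δ / 2)) :=
        Real.rpow_le_rpow_of_exponent_le hd1 (by nlinarith)
      _ = ((d : ℝ) ^ (1 - δ / 2)) ^ (1 - δ / 2) := Real.rpow_mul (by linarith) _ _
      _ ≤ (q : ℝ) ^ (1 - δ / 2) :=
        Real.rpow_le_rpow (Real.rpow_nonneg (by linarith) _) hq1 (by linarith)
  · obtain ⟨-, hE2, -⟩ := hE V G (Hi G q (δ / 2)) d (by linarith)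
    have h2 := hE2 (fun v _ => by exact_mod_cast hdeg v)
    have hlogr : Real.log r ≤ (1 / (2 * κ) - δ) * Real.log d := by
      rcases Nat.eq_zero_or_pos r with h | h
      · rw [h]
        simp only [CharP.cast_eq_zero, Real.log_zero]
        refine mul_nonneg ?_ (by linarith)
        have : 1 / 2 ≤ 1 / (2 * κ) := by
          rw [div_le_div_iff₀ (by norm_num) (by linarith)]; linarith
        linarith
      · have hr0 : (0 : ℝ) < r := by exact_mod_cast h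
        calc Real.log r ≤ Real.log ((d : ℝ) ^ (1 / (2 * κ) - δ)) := Real.log_le_log hr0 hrq
          _ = _ := Real.log_rpow (by linarith) _
    rw [le_div_iff₀ (by linarith)]
    have hh : (0 : ℝ) ≤ (Nat.card (Hi G q (δ / 2)) : ℝ) := Nat.cast_nonneg _
    have h3 : (Real.log r + δ / 2 * Real.log q) * q ≤ (d : ℝ) / 2 := by
      have h4 : Real.log r + δ / 2 * Real.log q ≤ 1 / (2 * κ) * Real.log d := by
        nlinarith [mul_nonneg hδ.le (by linarith : (0 : ℝ) ≤ Real.log d)]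
      have h5 : (Real.log r + δ / 2 * Real.log q) * q ≤ 1 / (2 * κ) * Real.log d * q :=
        mul_le_mul_of_nonneg_right h4 (by linarith)
      have h6 : 1 / (2 * κ) * Real.log d * q = 1 / (2 * κ) * (q * Real.log d) := by ring
      have h7 : 1 / (2 * κ) * (q * Real.log d) ≤ 1 / (2 * κ) * (κ * d) :=
        mul_le_mul_of_nonneg_left hqlog (by positivity)
      have h8 : 1 / (2 * κ) * (κ * d) = (d : ℝ) / 2 := by
        have : κ ≠ 0 := by linarith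
        field_simp
      linarith
    calc (Nat.card (Hi G q (δ / 2)) : ℝ) * (Real.log r + δ / 2 * Real.log q) * q
        = (Nat.card (Hi G q (δ / 2)) : ℝ) * ((Real.log r + δ / 2 * Real.log q) * q) := by ring
      _ ≤ (Nat.card (Hi G q (δ / 2)) : ℝ) * (d / 2) := mul_le_mul_of_nonneg_left h3 hh
      _ ≤ _ := by linarith

end Pool.Agent.R301.CT
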