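import Pool.Agent.R301.CT.Stm

/-!
# FIB: conditional independence of the colours of the neighbours (helper997 for helper301)
-/

set_option autoImplicit false

namespace Pool.Agent.R301.CT

open Finset

namespace FibAux

variable {V : Type} [Fintype V] [DecidableEq V]

omit [Fintype V] [DecidableEq V] in
lemma mem_nb {G : SimpleGraph V} {S : Finset V} {v w : V} :
    w ∈ nb G S v ↔ w ∈ S ∧ G.Adj v w := by
  classical
  unfold nb
  simp

lemma mem_Pr {G : SimpleGraph V} {q : ℕ} {S : Finset V} {f : V → Fin q} :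
    f ∈ Pr G q S ↔ ∀ u ∈ S, ∀ w ∈ S, G.Adj u w → f u ≠ f w := by
  classical
  unfold Pr
  simp

lemma mem_av {G : SimpleGraph V} {q : ℕ} {S : Finset V} {f : V → Fin q} {u : V} {c : Fin q} :
    c ∈ av G q S f u ↔ ∀ w ∈ nb G S u, f w ≠ c := by
  classical
  unfold av
  simp

lemma tri {G : SimpleGraph V} (hG : G.CliqueFree 3) {S : Finset V} {v u w : V}
    (hu : u ∈ nb G S v) (hw : w ∈ nb G S v) : ¬ G.Adj u w := by
  intro h
  have h1 := (mem_nb.1 hu).2
  have h2 := (mem_nb.1 hw).2
  exact hG {v, u, w} (SimpleGraph.is3Clique_triple_iff.2 ⟨h1, h2, h⟩)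

lemma card_pi {q : ℕ} (N : Finset V) (v : V) (hv : v ∉ N) (A : V → Finset (Fin q))
    (B : Finset (Fin q)) (f0 : V → Fin q) :
    (Fintype.piFinset (fun x => if x ∈ N then A x else if x = v then B else {f0 x})).card =
      B.card * ∏ u ∈ N, (A u).card := by
  rw [Fintype.card_piFinset]
  rw [← Finset.prod_subset (Finset.subset_univ (insert v N))]
  · rw [Finset.prod_insert hv, if_neg hv, if_pos rfl]
    congr 1
    refine Finset.prod_congr rfl fun u hu => ?_
    rw [if_pos hu]
  · intro x _ hx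
    rw [Finset.mem_insert, not_or] at hx
    rw [if_neg hx.2, if_neg hx.1, Finset.card_singleton]

/-- the available colours at a neighbour of `v` do not depend on the class -/
lemma av_eq {G : SimpleGraph V} (hG : G.CliqueFree 3) {q : ℕ} {S : Finset V} {v : V}
    (hv : v ∉ S) {f f' : V → Fin q} (h : ∀ x, x ∉ nb G S v → x ≠ v → f x = f' x) {u : V}
    (hu : u ∈ nb G S v) : av G q S f u = av G q S f' u := by
  ext c
  rw [mem_av, mem_av]
  refine forall₂_congr fun w hw => ?_
  have hwS := (mem_nb.1 hw).1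
  have h1 : w ∉ nb G S v := fun h2 => tri hG hu h2 (mem_nb.1 hw).2
  have h2 : w ≠ v := fun h3 => hv (h3 ▸ hwS)
  rw [h w h1 h2]

/-- the colourings of a class -/
lemma cls {G : SimpleGraph V} (hG : G.CliqueFree 3) {q : ℕ} {S : Finset V} {v : V}
    (hv : v ∉ S) {f0 f : V → Fin q} (hf0 : f0 ∈ Pr G q S) :
    (f ∈ Pr G q S ∧ ∀ x, x ∉ nb G S v → x ≠ v → f x = f0 x) ↔
      f ∈ Fintype.piFinset (fun x => if x ∈ nb G S v then av G q S f0 x else
        if x = v then (univ : Finset (Fin q)) else {f0 x}) := by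
  rw [Fintype.mem_piFinset]
  constructor
  · rintro ⟨h1, h2⟩ x
    by_cases hx : x ∈ nb G S v
    · rw [if_pos hx, ← av_eq hG hv h2 hx, mem_av]
      intro w hw
      exact (mem_Pr.1 h1 x (mem_nb.1 hx).1 w (mem_nb.1 hw).1 (mem_nb.1 hw).2).symm
    · rw [if_neg hx]
      by_cases hxv : x = v
      · rw [if_pos hxv]; exact mem_univ _
      · rw [if_neg hxv, mem_singleton]
        exact h2 x hx hxv
  · intro h
    have h2 : ∀ x, x ∉ nb G S v → x ≠ v → f x = f0 x := by
      intro x hx hxv
      have := h x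
      rw [if_neg hx, if_neg hxv, mem_singleton] at this
      exact this
    refine ⟨mem_Pr.2 ?_, h2⟩
    -- one of the two vertices in the neighbourhood
    have key : ∀ a ∈ S, ∀ b ∈ S, G.Adj a b → a ∈ nb G S v → f a ≠ f b := by
      intro a _ b hb hab ha
      have h3 := h a
      rw [if_pos ha, mem_av] at h3
      have hbN : b ∉ nb G S v := fun h4 => tri hG ha h4 hab
      have hbv : b ≠ v := fun h5 => hv (h5 ▸ hb)
      have h6 := h3 b (mem_nb.2 ⟨hb, hab⟩)
      rw [h2 b hbN hbv]
      exact h6.symm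
    intro a ha b hb hab
    by_cases haN : a ∈ nb G S v
    · exact key a ha b hb hab haN
    · by_cases hbN : b ∈ nb G S v
      · exact (key b hb a ha hab.symm hbN).symm
      · have hav : a ≠ v := fun h5 => hv (h5 ▸ ha)
        have hbv : b ≠ v := fun h5 => hv (h5 ▸ hb)
        rw [h2 a haN hav, h2 b hbN hbv]
        exact mem_Pr.1 hf0 a ha b hb hab

/-- some colourings of a class which are proper at `v` too -/
lemma cls2 {G : SimpleGraph V} (hG : G.CliqueFree 3) {q : ℕ} {S : Finset V} {v : V}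
    (hv : v ∉ S) {f0 f : V → Fin q} (hf0 : f0 ∈ Pr G q S) (c : Fin q)
    (hf : f ∈ Fintype.piFinset (fun x => if x ∈ nb G S v then (av G q S f0 x).erase c else
        if x = v then ({c} : Finset (Fin q)) else {f0 x})) :
    f ∈ Pr G q (insert v S) ∧ (∀ x, x ∉ nb G S v → x ≠ v → f x = f0 x) ∧ f v = c := by
  have hvN : v ∉ nb G S v := fun h => hv (mem_nb.1 h).1
  rw [Fintype.mem_piFinset] at hf
  have hfv : f v = c := by
    have := hf v
    rw [if_neg hvN, if_pos rfl, mem_singleton] at this
    exact this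
  have hmem : f ∈ Fintype.piFinset (fun x => if x ∈ nb G S v then av G q S f0 x else
        if x = v then (univ : Finset (Fin q)) else {f0 x}) := by
    rw [Fintype.mem_piFinset]
    intro x
    have h1 := hf x
    by_cases hx : x ∈ nb G S v
    · rw [if_pos hx] at h1 ⊢
      exact mem_of_mem_erase h1
    · rw [if_neg hx] at h1 ⊢
      by_cases hxv : x = v
      · rw [if_pos hxv]; exact mem_univ _
      · rw [if_neg hxv] at h1 ⊢
        exact h1
  obtain ⟨h1, h2⟩ := (cls hG hv hf0).2 hmem
  refine ⟨mem_Pr.2 ?_, h2, hfv⟩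
  have key : ∀ b ∈ S, G.Adj v b → f b ≠ f v := by
    intro b hb hvb
    have hbN : b ∈ nb G S v := mem_nb.2 ⟨hb, hvb⟩
    have h3 := hf b
    rw [if_pos hbN] at h3
    rw [hfv]
    exact ne_of_mem_erase h3
  intro a ha b hb hab
  rw [mem_insert] at ha hb
  rcases ha with ha | ha
  · rcases hb with hb | hb
    · rw [ha, hb] at hab
      exact absurd hab (G.loopless.irrefl v)
    · rw [ha] at hab ⊢
      exact (key b hb hab).symm
  · rcases hb with hb | hb
    · rw [hb] at hab ⊢
      exact key a ha hab.symm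
    · exact mem_Pr.1 h1 a ha b hb hab

end FibAux

open FibAux in
/-- FIB -/
theorem fib : S_FIB := by
  classical
  intro V _ _ G q S v hG hvS ψ hψ hineq
  have hvN : v ∉ nb G S v := fun h => hvS (mem_nb.1 h).1
  let r : (V → Fin q) → ({x : V // x ∉ nb G S v ∧ x ≠ v} → Fin q) := fun f x => f x.1
  have hr : ∀ f f' : V → Fin q, r f = r f' ↔ ∀ x, x ∉ nb G S v → x ≠ v → f x = f' x := by
    intro f f'
    constructor
    · intro h x hx hxv
      exact congrFun h ⟨x, hx, hxv⟩
    · intro h
      funext x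
      exact h x.1 x.2.1 x.2.2
  have e1 : ∑ f ∈ Pr G q S, ψ f =
      ∑ g, ∑ f ∈ (Pr G q S).filter (fun f => r f = g), ψ f :=
    (Finset.sum_fiberwise _ _ _).symm
  have e2 : ((Pr G q (insert v S)).card : ℝ) =
      ∑ g, (((Pr G q (insert v S)).filter (fun f => r f = g)).card : ℝ) := by
    rw [Finset.card_eq_sum_card_fiberwise (f := r) (t := univ) (fun _ _ => mem_univ _)]
    push_cast
    rfl
  rw [e1, e2]
  refine Finset.sum_le_sum fun g _ => ?_
  rcases ((Pr G q S).filter (fun f => r f = g)).eq_empty_or_nonempty with h0 | ⟨f0, hf0⟩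
  · rw [h0, sum_empty]; positivity
  rw [mem_filter] at hf0
  obtain ⟨hf0, hg⟩ := hf0
  -- the class
  have c1 : (Pr G q S).filter (fun f => r f = g) =
      Fintype.piFinset (fun x => if x ∈ nb G S v then av G q S f0 x else
        if x = v then (univ : Finset (Fin q)) else {f0 x}) := by
    ext f
    rw [mem_filter, ← hg, hr, cls hG hvS hf0]
  have c2 : (((Pr G q S).filter (fun f => r f = g)).card : ℝ) =
      q * ∏ u ∈ nb G S v, ((av G q S f0 u).card : ℝ) := by
    rw [c1, card_pi _ v hvN, card_univ, Fintype.card_fin]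
    push_cast
    rfl
  have c3 : ∑ f ∈ (Pr G q S).filter (fun f => r f = g), ψ f =
      ψ f0 * (q * ∏ u ∈ nb G S v, ((av G q S f0 u).card : ℝ)) := by
    rw [← c2, mul_comm, ← nsmul_eq_mul, ← Finset.sum_const]
    refine Finset.sum_congr rfl fun f hf => ?_
    rw [mem_filter, ← hg, hr] at hf
    exact hψ f f0 hf.2
  rw [c3]
  have hne : ∀ u ∈ nb G S v, (av G q S f0 u).Nonempty := by
    intro u hu
    refine ⟨f0 u, mem_av.2 fun w hw => ?_⟩
    exact (mem_Pr.1 hf0 u (mem_nb.1 hu).1 w (mem_nb.1 hw).1 (mem_nb.1 hw).2).symm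
  refine (hineq f0 hne).trans ?_
  -- the second count
  have d1 : ((Pr G q (insert v S)).filter (fun f => r f = g)).card =
      ∑ c : Fin q, (((Pr G q (insert v S)).filter (fun f => r f = g)).filter
        (fun f => f v = c)).card :=
    Finset.card_eq_sum_card_fiberwise (f := fun f : V → Fin q => f v) (t := univ)
      (fun _ _ => mem_univ _)
  rw [d1]
  push_cast
  refine Finset.sum_le_sum fun c _ => ?_
  have d2 : Fintype.piFinset (fun x => if x ∈ nb G S v then (av G q S f0 x).erase c else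
        if x = v then ({c} : Finset (Fin q)) else {f0 x}) ⊆
      ((Pr G q (insert v S)).filter (fun f => r f = g)).filter (fun f => f v = c) := by
    intro f hf
    obtain ⟨h1, h2, h3⟩ := cls2 hG hvS hf0 c hf
    rw [mem_filter, mem_filter]
    refine ⟨⟨h1, ?_⟩, h3⟩
    rw [← hg, hr]
    exact h2
  have d3 := Finset.card_le_card d2
  rw [card_pi _ v hvN, card_singleton, one_mul] at d3
  exact_mod_cast d3

end Pool.Agent.R301.CT
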