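import Pool.Agent.R301.CT.Stm

/-!
# FN: the final numerical comparison
-/

namespace Pool.Agent.R301.CT

open Filter

namespace FNaux

/-- the part of the vertices in `H` -/
lemma partH (δ ε : ℝ) (hε : 0 < ε) (hε2 : ε ≤ 1 / 2) (q s r h mH : ℕ) (hq : 2 ≤ q)
    (hs : 2 * (q : ℝ) ^ (1 - δ) ≤ s) (hr : 1 ≤ r) (hrq : (r : ℝ) ≤ (q : ℝ) ^ (1 - δ))
    (hh : (h : ℝ) * (Real.log r + δ * Real.log q) ≤ mH / q) :
    (1 - 1 / (q : ℝ)) ^ mH * ((1 - ε) * q) ^ h ≤ ((s / r : ℕ) : ℝ) ^ h := by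
  have hq0 : (0 : ℝ) < q := by positivity
  have hq2 : (2 : ℝ) ≤ q := by exact_mod_cast hq
  have hr0 : (0 : ℝ) < r := by exact_mod_cast (show 0 < r by omega)
  have h1q : 0 ≤ 1 - 1 / (q : ℝ) := by
    have : 1 / (q : ℝ) ≤ 1 := by
      rw [div_le_one hq0]; linarith
    linarith
  have e1 : (1 - 1 / (q : ℝ)) ^ mH ≤ Real.exp (-(Real.log r + δ * Real.log q)) ^ h := by
    calc (1 - 1 / (q : ℝ)) ^ mH ≤ Real.exp (-(1 / (q : ℝ))) ^ mH := by
          apply pow_le_pow_left₀ h1q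
          have := Real.add_one_le_exp (-(1 / (q : ℝ)))
          linarith
      _ = Real.exp (-(mH / q)) := by
          rw [← Real.exp_nat_mul]; congr 1; ring
      _ ≤ Real.exp (-((h : ℝ) * (Real.log r + δ * Real.log q))) := by
          apply Real.exp_le_exp.2; linarith
      _ = Real.exp (-(Real.log r + δ * Real.log q)) ^ h := by
          rw [← Real.exp_nat_mul]; congr 1; ring
  have e2 : Real.exp (-(Real.log r + δ * Real.log q)) * ((1 - ε) * q) ≤ ((s / r : ℕ) : ℝ) := by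
    have e3 : Real.exp (-(Real.log r + δ * Real.log q)) * q = (q : ℝ) ^ (1 - δ) / r := by
      rw [neg_add, Real.exp_add, Real.exp_neg, Real.exp_log hr0, Real.rpow_sub hq0, Real.rpow_one,
        Real.rpow_def_of_pos hq0, Real.exp_neg]
      have : Real.exp (δ * Real.log q) = Real.exp (Real.log q * δ) := by rw [mul_comm]
      rw [this]
      field_simp
    have e4 : (s : ℝ) / r - 1 ≤ ((s / r : ℕ) : ℝ) := by
      have := Nat.lt_div_mul_add (a := s) (b := r) (by omega)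
      have h5 : (s : ℝ) < ((s / r : ℕ) : ℝ) * r + r := by exact_mod_cast this
      have : (s : ℝ) / r < ((s / r : ℕ) : ℝ) + 1 := by
        rw [div_lt_iff₀ hr0]; linarith
      linarith
    have e5 : (q : ℝ) ^ (1 - δ) / r ≤ (s : ℝ) / r - 1 := by
      rw [div_sub_one hr0.ne', div_le_div_iff_of_pos_right hr0]
      linarith
    calc Real.exp (-(Real.log r + δ * Real.log q)) * ((1 - ε) * q)
        = (1 - ε) * ((q : ℝ) ^ (1 - δ) / r) := by rw [← e3]; ring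
      _ ≤ 1 * ((q : ℝ) ^ (1 - δ) / r) := by
          apply mul_le_mul_of_nonneg_right (by linarith) (by positivity)
      _ ≤ _ := by linarith
  have hnn : 0 ≤ (1 - ε) * (q : ℝ) := mul_nonneg (by linarith) hq0.le
  calc (1 - 1 / (q : ℝ)) ^ mH * ((1 - ε) * q) ^ h
      ≤ Real.exp (-(Real.log r + δ * Real.log q)) ^ h * ((1 - ε) * q) ^ h :=
        mul_le_mul_of_nonneg_right e1 (pow_nonneg hnn _)
    _ = (Real.exp (-(Real.log r + δ * Real.log q)) * ((1 - ε) * q)) ^ h := (mul_pow _ _ _).symm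
    _ ≤ _ := pow_le_pow_left₀ (mul_nonneg (Real.exp_pos _).le hnn) e2 _

/-- the part of the vertices outside `H` -/
lemma partL (ε : ℝ) (hε : 0 < ε) (hε2 : ε ≤ 1 / 2) (q Q l mL : ℕ) (L : ℝ) (hL : 4 ≤ L)
    (hLε : 18 / ε ≤ L) (hq : 4 ≤ q) (hQq : Q ≤ q) (hQ : (q : ℝ) * (1 - 1 / L ^ 2) ≤ Q)
    (hm : (mL : ℝ) ≤ l * (q * L)) :
    (1 - 1 / (q : ℝ)) ^ mL * ((1 - ε) * q) ^ l ≤
      (1 - 1 / (Q : ℝ)) ^ mL * ((1 - ε / 2) * Q) ^ l := by
  have hq4 : (4 : ℝ) ≤ q := by exact_mod_cast hq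
  have hq0 : (0 : ℝ) < q := by linarith
  have hL0 : 0 < L := by linarith
  have hL2 : 1 / L ^ 2 ≤ 1 / 16 := by
    apply one_div_le_one_div_of_le (by norm_num)
    nlinarith
  have hQ2 : (q : ℝ) / 2 ≤ Q := by nlinarith
  have hQ1 : (q : ℝ) / 4 ≤ Q - 1 := by linarith
  have hQ0 : (0 : ℝ) < Q := by linarith
  have hQ10 : (0 : ℝ) < (Q : ℝ) - 1 := by linarith
  have hQq' : (Q : ℝ) ≤ q := by exact_mod_cast hQq
  have hsub : (q : ℝ) - Q ≤ q / L ^ 2 := by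
    have : (q : ℝ) * (1 - 1 / L ^ 2) = q - q / L ^ 2 := by ring
    linarith
  have h1q : 0 ≤ 1 - 1 / (q : ℝ) := by
    have : 1 / (q : ℝ) ≤ 1 := by
      rw [div_le_one hq0]; linarith
    linarith
  have h1Q : 0 ≤ 1 - 1 / (Q : ℝ) := by
    have : 1 / (Q : ℝ) ≤ 1 := by
      rw [div_le_one hQ0]; linarith
    linarith
  -- ratio of the factors
  have e1 : 1 - 1 / (q : ℝ) ≤ (1 - 1 / (Q : ℝ)) * Real.exp (4 / (q * L ^ 2)) := by
    have a1 : 1 - 1 / (q : ℝ) = (1 - 1 / (Q : ℝ)) * (1 + ((q : ℝ) - Q) / (q * (Q - 1))) := by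
      field_simp
      ring
    have a2 : ((q : ℝ) - Q) / (q * (Q - 1)) ≤ 4 / (q * L ^ 2) := by
      calc ((q : ℝ) - Q) / (q * (Q - 1)) ≤ (q / L ^ 2) / (q * (Q - 1)) := by
            apply div_le_div_of_nonneg_right hsub (by positivity)
        _ ≤ (q / L ^ 2) / (q * (q / 4)) := by
            apply div_le_div_of_nonneg_left (by positivity) (by positivity)
            exact mul_le_mul_of_nonneg_left hQ1 hq0.le
        _ = 4 / (q * L ^ 2) := by field_simp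
    rw [a1]
    apply mul_le_mul_of_nonneg_left _ h1Q
    have := Real.add_one_le_exp (4 / ((q : ℝ) * L ^ 2))
    linarith
  have e2 : (1 - 1 / (q : ℝ)) ^ mL ≤ (1 - 1 / (Q : ℝ)) ^ mL * Real.exp (4 / L) ^ l := by
    calc (1 - 1 / (q : ℝ)) ^ mL ≤ ((1 - 1 / (Q : ℝ)) * Real.exp (4 / (q * L ^ 2))) ^ mL :=
          pow_le_pow_left₀ h1q e1 _
      _ = (1 - 1 / (Q : ℝ)) ^ mL * Real.exp (mL * (4 / (q * L ^ 2))) := by
          rw [mul_pow, ← Real.exp_nat_mul]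
      _ ≤ (1 - 1 / (Q : ℝ)) ^ mL * Real.exp (l * (4 / L)) := by
          apply mul_le_mul_of_nonneg_left _ (pow_nonneg h1Q _)
          apply Real.exp_le_exp.2
          calc (mL : ℝ) * (4 / (q * L ^ 2)) ≤ (l * (q * L)) * (4 / (q * L ^ 2)) := by
                apply mul_le_mul_of_nonneg_right hm (by positivity)
            _ = l * (4 / L) := by field_simp
      _ = (1 - 1 / (Q : ℝ)) ^ mL * Real.exp (4 / L) ^ l := by
          rw [← Real.exp_nat_mul]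
  have e3 : Real.exp (4 / L) * ((1 - ε) * q) ≤ (1 - ε / 2) * Q := by
    have b1 : Real.exp (4 / L) ≤ 1 + 8 / L := by
      have hx0 : 0 ≤ 4 / L := by positivity
      have hx1 : 4 / L ≤ 1 := by rw [div_le_one hL0]; exact hL
      have := Real.abs_exp_sub_one_le (x := 4 / L) (by rw [abs_of_nonneg hx0]; exact hx1)
      rw [abs_of_nonneg hx0] at this
      have h2 := (abs_le.1 this).2
      have h3 : 8 / L = 2 * (4 / L) := by ring
      linarith
    have b2 : 1 / L ^ 2 ≤ 1 / L := by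
      apply one_div_le_one_div_of_le hL0
      nlinarith
    have b3 : 9 / L ≤ ε / 2 := by
      rw [div_le_iff₀ hε] at hLε
      rw [div_le_iff₀ hL0]
      linarith
    have b4 : 0 < 1 / L := by positivity
    have b5 : 8 / L = 8 * (1 / L) := by ring
    have b6 : 9 / L = 9 * (1 / L) := by ring
    have b7 : (1 - ε) * (1 + 8 / L) ≤ (1 - ε / 2) * (1 - 1 / L ^ 2) := by
      rw [b5]
      rw [b6] at b3
      have c1 : (1 - ε) * (1 + 8 * (1 / L)) ≤ 1 - ε + 8 * (1 / L) := by nlinarith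
      have c2 : 1 - ε / 2 - 1 / L ≤ (1 - ε / 2) * (1 - 1 / L ^ 2) := by
        have : 0 ≤ 1 / L ^ 2 := by positivity
        nlinarith
      linarith
    calc Real.exp (4 / L) * ((1 - ε) * q) ≤ (1 + 8 / L) * ((1 - ε) * q) := by
          apply mul_le_mul_of_nonneg_right b1
          exact mul_nonneg (by linarith) hq0.le
      _ = ((1 - ε) * (1 + 8 / L)) * q := by ring
      _ ≤ ((1 - ε / 2) * (1 - 1 / L ^ 2)) * q := mul_le_mul_of_nonneg_right b7 hq0.le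
      _ = (1 - ε / 2) * (q * (1 - 1 / L ^ 2)) := by ring
      _ ≤ (1 - ε / 2) * Q := mul_le_mul_of_nonneg_left hQ (by linarith)
  have hnn : 0 ≤ (1 - ε) * (q : ℝ) := mul_nonneg (by linarith) hq0.le
  calc (1 - 1 / (q : ℝ)) ^ mL * ((1 - ε) * q) ^ l
      ≤ ((1 - 1 / (Q : ℝ)) ^ mL * Real.exp (4 / L) ^ l) * ((1 - ε) * q) ^ l :=
        mul_le_mul_of_nonneg_right e2 (pow_nonneg hnn _)
    _ = (1 - 1 / (Q : ℝ)) ^ mL * (Real.exp (4 / L) * ((1 - ε) * q)) ^ l := by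
        rw [mul_pow (Real.exp (4 / L))]; ring
    _ ≤ _ := by
        apply mul_le_mul_of_nonneg_left _ (pow_nonneg h1Q _)
        exact pow_le_pow_left₀ (mul_nonneg (Real.exp_pos _).le hnn) e3 _

/-- the second condition -/
lemma cond2 (δ : ℝ) (hδ : 0 < δ) (hδ1 : δ < 1) (q Q : ℕ) (hq : 4 ≤ q)
    (hL : 4 ≤ Real.log q) (hLδ : 4 / δ ≤ Real.log q)
    (hQ : (q : ℝ) * (1 - 1 / Real.log q ^ 2) ≤ Q) :
    (1 - δ) * q * Real.log q ≤ (1 - δ / 2) * (Q : ℝ) * Real.log (Q : ℝ) := by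
  set L := Real.log q with hLdef
  have hq4 : (4 : ℝ) ≤ q := by exact_mod_cast hq
  have hq0 : (0 : ℝ) < q := by linarith
  have hL0 : 0 < L := by linarith
  have hL2 : 1 / L ^ 2 ≤ 1 / 16 := by
    apply one_div_le_one_div_of_le (by norm_num)
    nlinarith
  have hQ2 : (q : ℝ) / 2 ≤ Q := by nlinarith
  have hQ0 : (0 : ℝ) < Q := by linarith
  have hlogQ : L - 1 ≤ Real.log Q := by
    have a : Real.log ((q : ℝ) / 2) ≤ Real.log Q := Real.log_le_log (by positivity) hQ2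
    rw [Real.log_div hq0.ne' (by norm_num)] at a
    have b : Real.log 2 ≤ 1 := by
      have := Real.log_le_sub_one_of_pos (show (0 : ℝ) < 2 by norm_num)
      linarith
    linarith
  have h1 : L - 2 ≤ (1 - 1 / L ^ 2) * (L - 1) := by
    have a : (1 - 1 / L ^ 2) * (L - 1) = L - 1 - 1 / L + 1 / L ^ 2 := by
      field_simp
      ring
    have b : 1 / L ≤ 1 := by rw [div_le_one hL0]; linarith
    have c : 0 < 1 / L ^ 2 := by positivity
    linarith
  have h2 : (1 - δ) * L ≤ (1 - δ / 2) * (L - 2) := by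
    rw [div_le_iff₀ hδ] at hLδ
    nlinarith
  have h3 : (q : ℝ) * (L - 2) ≤ Q * Real.log Q := by
    calc (q : ℝ) * (L - 2) ≤ q * ((1 - 1 / L ^ 2) * (L - 1)) :=
          mul_le_mul_of_nonneg_left h1 hq0.le
      _ = (q * (1 - 1 / L ^ 2)) * (L - 1) := by ring
      _ ≤ Q * (L - 1) := mul_le_mul_of_nonneg_right hQ (by linarith)
      _ ≤ Q * Real.log Q := mul_le_mul_of_nonneg_left hlogQ hQ0.le
  calc (1 - δ) * q * L = q * ((1 - δ) * L) := by ring
    _ ≤ q * ((1 - δ / 2) * (L - 2)) := mul_le_mul_of_nonneg_left h2 hq0.le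
    _ = (1 - δ / 2) * (q * (L - 2)) := by ring
    _ ≤ (1 - δ / 2) * (Q * Real.log Q) := mul_le_mul_of_nonneg_left h3 (by linarith)
    _ = _ := by ring

/-- the choice of `s` -/
lemma core (δ ε : ℝ) (hδ : 0 < δ) (hδ1 : δ < 1) (hε : 0 < ε) (hε2 : ε ≤ 1 / 2) (q : ℕ)
    (hL : 4 ≤ Real.log q) (hLδ : 4 / δ ≤ Real.log q) (hLε : 18 / ε ≤ Real.log q)
    (hlo : Real.log q ^ 2 ≤ 1 / 3 * (q : ℝ) ^ δ) : ∃ s : ℕ,
    2 * s ≤ q ∧
    (1 - δ) * q * Real.log q ≤ (1 - δ / 2) * ((q - s : ℕ) : ℝ) * Real.log ((q - s : ℕ) : ℝ) ∧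
    ∀ r : ℕ, 1 ≤ r → (r : ℝ) ≤ (q : ℝ) ^ (1 - δ) → ∀ h l mH mL : ℕ,
      (h : ℝ) * (Real.log r + δ * Real.log q) ≤ mH / q → (mL : ℝ) ≤ l * (q * Real.log q) →
      (1 - 1 / (q : ℝ)) ^ (mH + mL) * ((1 - ε) * q) ^ (h + l) ≤
        ((s / r : ℕ) : ℝ) ^ h *
          ((1 - 1 / ((q - s : ℕ) : ℝ)) ^ mL * ((1 - ε / 2) * ((q - s : ℕ) : ℝ)) ^ l) := by
  have hqpos : 0 < q := by
    rcases Nat.eq_zero_or_pos q with h | h
    · subst h; simp at hL; linarith
    · exact h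
  have hq0 : (0 : ℝ) < q := by exact_mod_cast hqpos
  have hq5 : (5 : ℝ) ≤ q := by
    have := Real.log_le_sub_one_of_pos hq0
    linarith
  have hq4n : 4 ≤ q := by
    have : (4 : ℝ) ≤ q := by linarith
    exact_mod_cast this
  have hL0 : 0 < Real.log q := by linarith
  have hL16 : 16 ≤ Real.log q ^ 2 := by nlinarith
  set s := ⌊(q : ℝ) / Real.log q ^ 2⌋₊ with hs
  have hs1 : (s : ℝ) ≤ q / Real.log q ^ 2 := Nat.floor_le (by positivity)
  have hs2 : (q : ℝ) / Real.log q ^ 2 < s + 1 := Nat.lt_floor_add_one _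
  have hs3 : (q : ℝ) / Real.log q ^ 2 ≤ q / 16 :=
    div_le_div_of_nonneg_left hq0.le (by norm_num) hL16
  have hs4 : 2 * s ≤ q := by
    have : (2 : ℝ) * s ≤ q := by linarith
    exact_mod_cast this
  have hsq : s ≤ q := by omega
  have hcast : ((q - s : ℕ) : ℝ) = q - s := Nat.cast_sub hsq
  have hQ : (q : ℝ) * (1 - 1 / Real.log q ^ 2) ≤ ((q - s : ℕ) : ℝ) := by
    rw [hcast]
    have : (q : ℝ) * (1 - 1 / Real.log q ^ 2) = q - q / Real.log q ^ 2 := by ring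
    linarith
  have hs5 : 2 * (q : ℝ) ^ (1 - δ) ≤ s := by
    have h1 : 1 ≤ (q : ℝ) ^ (1 - δ) := Real.one_le_rpow (by linarith) (by linarith)
    have h2 : 3 * (q : ℝ) ^ (1 - δ) ≤ q / Real.log q ^ 2 := by
      rw [le_div_iff₀ (by positivity)]
      calc 3 * (q : ℝ) ^ (1 - δ) * Real.log q ^ 2
          ≤ 3 * (q : ℝ) ^ (1 - δ) * (1 / 3 * (q : ℝ) ^ δ) :=
            mul_le_mul_of_nonneg_left hlo (by positivity)
        _ = (q : ℝ) ^ (1 - δ) * (q : ℝ) ^ δ := by ring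
        _ = q := by
            rw [← Real.rpow_add hq0]
            simp
    linarith
  refine ⟨s, hs4, cond2 δ hδ hδ1 q (q - s) hq4n hL hLδ hQ, ?_⟩
  intro r hr hrq h l mH mL hh hm
  have A := partH δ ε hε hε2 q s r h mH (by omega) hs5 hr hrq hh
  have B := partL ε hε hε2 q (q - s) l mL (Real.log q) hL hLε hq4n (Nat.sub_le _ _) hQ hm
  have h1q : 0 ≤ 1 - 1 / (q : ℝ) := by
    have : 1 / (q : ℝ) ≤ 1 := by
      rw [div_le_one hq0]; linarith
    linarith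
  have hnn : 0 ≤ (1 - ε) * (q : ℝ) := mul_nonneg (by linarith) hq0.le
  calc (1 - 1 / (q : ℝ)) ^ (mH + mL) * ((1 - ε) * q) ^ (h + l)
      = ((1 - 1 / (q : ℝ)) ^ mH * ((1 - ε) * q) ^ h) *
          ((1 - 1 / (q : ℝ)) ^ mL * ((1 - ε) * q) ^ l) := by
        rw [pow_add, pow_add]; ring
    _ ≤ _ := mul_le_mul A B (mul_nonneg (pow_nonneg h1q _) (pow_nonneg hnn _)) (by positivity)

end FNaux

theorem fn : S_FN := by
  intro δ ε hδ hδ1 hε hε2
  have hlog : Tendsto (fun q : ℕ => Real.log (q : ℝ)) atTop atTop :=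
    Real.tendsto_log_atTop.comp tendsto_natCast_atTop_atTop
  have hlo : ∀ᶠ q : ℕ in atTop, Real.log q ^ 2 ≤ 1 / 3 * (q : ℝ) ^ δ := by
    have h1 := (isLittleO_log_rpow_rpow_atTop (2 : ℝ) hδ).bound (show (0 : ℝ) < 1 / 3 by norm_num)
    have h2 := tendsto_natCast_atTop_atTop (R := ℝ) |>.eventually h1
    filter_upwards [h2] with q hq
    have h3 : Real.log (q : ℝ) ^ (2 : ℝ) = Real.log q ^ 2 := by
      exact_mod_cast Real.rpow_natCast (Real.log (q : ℝ)) 2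
    rw [h3, Real.norm_of_nonneg (sq_nonneg _),
      Real.norm_of_nonneg (Real.rpow_nonneg (Nat.cast_nonneg _) _)] at hq
    exact hq
  obtain ⟨q0, hq0⟩ := eventually_atTop.1
    ((hlog.eventually_ge_atTop 4).and ((hlog.eventually_ge_atTop (4 / δ)).and
      ((hlog.eventually_ge_atTop (18 / ε)).and hlo)))
  refine ⟨q0, fun q hq => ?_⟩
  obtain ⟨h1, h2, h3, h4⟩ := hq0 q hq
  exact FNaux.core δ ε hδ hδ1 hε hε2 q h1 h2 h3 h4

end Pool.Agent.R301.CT
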