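import Pool.Agent.R301.CT.Stm

namespace Pool.Agent.R301.CT

open Finset

namespace IndAux

theorem mem_nb {V : Type} [Fintype V] [DecidableEq V] (G : SimpleGraph V) (S : Finset V)
    (v w : V) : w ∈ nb G S v ↔ w ∈ S ∧ G.Adj v w := by
  simp [nb]

theorem av_congr {V : Type} [Fintype V] [DecidableEq V] (G : SimpleGraph V) (q : ℕ)
    (S : Finset V) (v : V) (hG : G.CliqueFree 3) (hv : v ∉ S) (f f' : V → Fin q)
    (h : ∀ x, x ∉ nb G S v → x ≠ v → f x = f' x) (u : V) (hu : u ∈ nb G S v) :
    av G q S f u = av G q S f' u := by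
  have hw : ∀ w ∈ nb G S u, f w = f' w := by
    intro w hw
    rw [mem_nb] at hw hu
    apply h
    · intro hw2
      rw [mem_nb] at hw2
      apply hG {v, u, w}
      rw [SimpleGraph.is3Clique_triple_iff]
      exact ⟨hu.2, hw2.2, hw.2⟩
    · rintro rfl
      exact hv hw.1
  unfold av
  apply Finset.filter_congr
  intro c _
  constructor
  · intro h3 w hww
    rw [← hw w hww]; exact h3 w hww
  · intro h3 w hww
    rw [hw w hww]; exact h3 w hww

end IndAux

open IndAux

theorem ind (h1 : S_AM) (h2 : S_FIB) (h3 : S_BAD) : S_IND := by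
  intro V _ _ G q D ε hG hε0 hε1 hq hD hNC
  obtain ⟨t, b, ht, hb, htb, hN⟩ := hNC
  have hq0 : (0 : ℝ) < q := by
    have : 0 < q := by omega
    exact_mod_cast this
  have hq2 : (2 : ℝ) ≤ q := by exact_mod_cast hq
  have hr0 : (0 : ℝ) < 1 - 1 / (q : ℝ) := by
    have : 1 / (q : ℝ) ≤ 1 / 2 := one_div_le_one_div_of_le (by norm_num) hq2
    linarith
  have hr1 : 1 - 1 / (q : ℝ) ≤ 1 := by
    have : 0 ≤ 1 / (q : ℝ) := by positivity
    linarith
  have hrD : 0 < (1 - 1 / (q : ℝ)) ^ D := by positivity
  have hε' : 0 < 1 - ε := by linarith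
  have key : ∀ n : ℕ, ∀ S : Finset V, S.card = n → ∀ v, v ∉ S →
      (1 - ε) * (1 - 1 / (q : ℝ)) ^ (nb G S v).card * ((Pr G q S).card : ℝ) ≤
        ((Pr G q (insert v S)).card : ℝ) := by
    intro n
    induction n using Nat.strong_induction_on with
    | _ n IH =>
    intro S hS v hv
    set N := nb G S v with hNdef
    set X : ℝ := ((q : ℝ) - t * b) / q * Real.exp (-((1 + 1 / t) * N.card / ((q : ℝ) - t * b)))
      with hX
    have hX0 : 0 < X := by
      have : 0 < (q : ℝ) - t * b := by linarith
      positivity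
    -- the function bad
    let bad : (V → Fin q) → ℝ := fun f =>
      ((N.filter (fun u => ((av G q S f u).card : ℝ) ≤ t)).card : ℝ)
    let ψ : (V → Fin q) → ℝ := fun f => if bad f ≤ b then X else 0
    have hψ1 : ∀ f f' : V → Fin q, (∀ x, x ∉ nb G S v → x ≠ v → f x = f' x) → ψ f = ψ f' := by
      intro f f' hff
      have hb' : bad f = bad f' := by
        simp only [bad]
        congr 2
        apply Finset.filter_congr
        intro u hu
        rw [av_congr G q S v hG hv f f' hff u hu]
      simp only [ψ, hb']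
    have hψ2 : ∀ f : V → Fin q, (∀ u ∈ nb G S v, (av G q S f u).Nonempty) →
        ψ f * (q * ∏ u ∈ nb G S v, ((av G q S f u).card : ℝ)) ≤
          ∑ c : Fin q, ∏ u ∈ nb G S v, (((av G q S f u).erase c).card : ℝ) := by
      intro f hf
      by_cases hbf : bad f ≤ b
      · simp only [ψ, if_pos hbf]
        exact h1 V N q (fun u => av G q S f u) t b ht hf hbf htb
      · simp only [ψ, if_neg hbf, zero_mul]
        exact Finset.sum_nonneg (fun c _ => Finset.prod_nonneg (fun u _ => Nat.cast_nonneg _))
    have hfib := h2 V G q S v hG hv ψ hψ1 hψ2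
    -- the number of bad colourings
    set P := Pr G q S with hP
    set B := P.filter (fun f => ¬ bad f ≤ b) with hB
    have hsum : ∑ f ∈ P, ψ f = X * ((P.card : ℝ) - B.card) := by
      have e1 : ∑ f ∈ P, ψ f = ∑ f ∈ P.filter (fun f => bad f ≤ b), X := by
        rw [Finset.sum_filter]
      have e2 : (P.filter (fun f => bad f ≤ b)).card + B.card = P.card :=
        Finset.card_filter_add_card_filter_not _
      have e3 : ((P.filter (fun f => bad f ≤ b)).card : ℝ) = (P.card : ℝ) - B.card := by
        rw [← e2]; push_cast; ring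
      rw [e1, Finset.sum_const, nsmul_eq_mul, e3]; ring
    have hmark : b * (B.card : ℝ) ≤ ∑ f ∈ P, bad f := by
      calc b * (B.card : ℝ) = ∑ f ∈ B, b := by rw [Finset.sum_const, nsmul_eq_mul]; ring
        _ ≤ ∑ f ∈ B, bad f := by
            apply Finset.sum_le_sum
            intro f hf
            have := (Finset.mem_filter.mp hf).2
            linarith
        _ ≤ ∑ f ∈ P, bad f := by
            apply Finset.sum_le_sum_of_subset_of_nonneg (Finset.filter_subset _ _)
            intro f _ _
            exact Nat.cast_nonneg _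
    have hswap : ∑ f ∈ P, bad f =
        ∑ u ∈ N, ((P.filter (fun f => ((av G q S f u).card : ℝ) ≤ t)).card : ℝ) := by
      have e1 : ∀ f ∈ P, bad f = ∑ u ∈ N, (if ((av G q S f u).card : ℝ) ≤ t then (1 : ℝ) else 0) := by
        intro f _
        simp only [bad]
        rw [Finset.card_filter]
        push_cast
        rfl
      rw [Finset.sum_congr rfl e1, Finset.sum_comm]
      apply Finset.sum_congr rfl
      intro u _
      rw [Finset.card_filter]
      push_cast
      rfl
    have hone : ∀ u ∈ N, ((P.filter (fun f => ((av G q S f u).card : ℝ) ≤ t)).card : ℝ) ≤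
        t * P.card / (q * (1 - 1 / (q : ℝ)) ^ D * (1 - ε)) := by
      intro u hu
      have huS : u ∈ S := ((mem_nb G S v u).mp hu).1
      have hb1 := h3 V G q S u t huS (by linarith)
      have hcard : (S.erase u).card < n := by
        rw [← hS]; exact Finset.card_erase_lt_of_mem huS
      have ih := IH _ hcard (S.erase u) rfl u (Finset.notMem_erase u S)
      rw [Finset.insert_erase huS] at ih
      have hpow : (1 - 1 / (q : ℝ)) ^ D ≤ (1 - 1 / (q : ℝ)) ^ (nb G (S.erase u) u).card :=
        pow_le_pow_of_le_one hr0.le hr1 (hD _ _)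
      have ih2 : (1 - ε) * (1 - 1 / (q : ℝ)) ^ D * ((Pr G q (S.erase u)).card : ℝ) ≤ P.card := by
        refine le_trans ?_ ih
        gcongr
      rw [le_div_iff₀ (by positivity)]
      calc ((P.filter (fun f => ((av G q S f u).card : ℝ) ≤ t)).card : ℝ) *
            (q * (1 - 1 / (q : ℝ)) ^ D * (1 - ε))
          = (q * ((P.filter (fun f => ((av G q S f u).card : ℝ) ≤ t)).card : ℝ)) *
            ((1 - ε) * (1 - 1 / (q : ℝ)) ^ D) := by ring
        _ ≤ (t * ((Pr G q (S.erase u)).card : ℝ)) * ((1 - ε) * (1 - 1 / (q : ℝ)) ^ D) := by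
            apply mul_le_mul_of_nonneg_right hb1 (by positivity)
        _ = t * ((1 - ε) * (1 - 1 / (q : ℝ)) ^ D * ((Pr G q (S.erase u)).card : ℝ)) := by ring
        _ ≤ t * P.card := by
            apply mul_le_mul_of_nonneg_left ih2 (by linarith)
    have hND : (N.card : ℝ) ≤ D := by exact_mod_cast hD S v
    have hBle : (B.card : ℝ) ≤ D * t / (q * (1 - 1 / (q : ℝ)) ^ D * (1 - ε) * b) * P.card := by
      have e1 : b * (B.card : ℝ) ≤ D * (t * P.card / (q * (1 - 1 / (q : ℝ)) ^ D * (1 - ε))) := by
        calc b * (B.card : ℝ) ≤ _ := hmark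
          _ = _ := hswap
          _ ≤ ∑ u ∈ N, t * P.card / (q * (1 - 1 / (q : ℝ)) ^ D * (1 - ε)) :=
              Finset.sum_le_sum hone
          _ = N.card * (t * P.card / (q * (1 - 1 / (q : ℝ)) ^ D * (1 - ε))) := by
              rw [Finset.sum_const, nsmul_eq_mul]
          _ ≤ D * (t * P.card / (q * (1 - 1 / (q : ℝ)) ^ D * (1 - ε))) := by
              apply mul_le_mul_of_nonneg_right hND
              apply div_nonneg
              · have : (0 : ℝ) ≤ P.card := Nat.cast_nonneg _
                have : 0 ≤ t := by linarith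
                positivity
              · positivity
      have e2 : (B.card : ℝ) ≤ (D * (t * P.card / (q * (1 - 1 / (q : ℝ)) ^ D * (1 - ε)))) / b := by
        rw [le_div_iff₀ hb]; linarith
      refine e2.trans (le_of_eq ?_)
      field_simp
    have hfin := hN N.card (hD S v)
    calc (1 - ε) * (1 - 1 / (q : ℝ)) ^ N.card * (P.card : ℝ)
        ≤ (1 - D * t / (q * (1 - 1 / (q : ℝ)) ^ D * (1 - ε) * b)) * X * (P.card : ℝ) := by
          apply mul_le_mul_of_nonneg_right hfin (Nat.cast_nonneg _)
      _ = X * ((P.card : ℝ) - D * t / (q * (1 - 1 / (q : ℝ)) ^ D * (1 - ε) * b) * P.card) := by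
          ring
      _ ≤ X * ((P.card : ℝ) - B.card) := by
          apply mul_le_mul_of_nonneg_left _ hX0.le
          linarith
      _ = ∑ f ∈ P, ψ f := hsum.symm
      _ ≤ _ := hfib
  intro S v hv
  exact key S.card S rfl v hv

end Pool.Agent.R301.CT
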