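import Pool.Agent.R301.CT.Stm

/-!
# Counting colourings of triangle-free graphs of small chromatic number: assembly
-/

namespace Pool.Agent.R301.CT

open Finset

/-- the vertices of degree larger than `(1-δ) q log q` -/
def Hi {V : Type} (G : SimpleGraph V) (q : ℕ) (δ : ℝ) : Set V :=
  {v | (1 - δ) * q * Real.log q < (Nat.card (G.neighborSet v) : ℝ)}

theorem bounded (hI : S_IND) (hC : S_CNT) (hN : S_NUM) (δ ε : ℝ) (hδ : 0 < δ) (hδ1 : δ < 1)
    (hε : 0 < ε) (hε1 : ε ≤ 1 / 2) :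
    ∃ q0 : ℕ, ∀ q : ℕ, q0 ≤ q → ∀ (V : Type) [Fintype V] [DecidableEq V] (G : SimpleGraph V),
      G.CliqueFree 3 → (∀ S v, ((nb G S v).card : ℝ) ≤ (1 - δ) * q * Real.log q) →
      (1 - 1 / (q : ℝ)) ^ (Nat.card G.edgeSet) * ((1 - ε) * q) ^ (Nat.card V) ≤
        (Nat.card (G.Coloring (Fin q)) : ℝ) := by
  obtain ⟨q0, h0⟩ := hN δ ε hδ hε hε1
  refine ⟨q0 + 2, fun q hq V _ _ G hG hD => ?_⟩
  have hq2 : 2 ≤ q := by omega
  have hqr : (1 : ℝ) ≤ q := by exact_mod_cast (by omega : 1 ≤ q)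
  have hnn : 0 ≤ (1 - δ) * q * Real.log q :=
    mul_nonneg (mul_nonneg (by linarith) (by linarith)) (Real.log_nonneg hqr)
  set D := ⌊(1 - δ) * q * Real.log q⌋₊ with hDdef
  have hNC : NC q D ε := h0 q (by omega) D (Nat.floor_le hnn)
  refine hC V G q ε hε.le (by linarith) (by omega) ?_
  exact hI V G q D ε hG hε hε1 hq2 (fun S v => Nat.le_floor (hD S v)) hNC

theorem general (hI : S_IND) (hC : S_CNT) (hN : S_NUM) (hP : S_PAL) (hE : S_EDG) (hF : S_FN)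
    (δ ε : ℝ) (hδ : 0 < δ) (hδ1 : δ < 1) (hε : 0 < ε) (hε1 : ε ≤ 1 / 2) :
    ∃ q0 : ℕ, ∀ q : ℕ, q0 ≤ q → ∀ (V : Type) [Fintype V] (G : SimpleGraph V) (r : ℕ),
      G.CliqueFree 3 → (G.induce (Hi G q δ)).Colorable r → (r : ℝ) ≤ (q : ℝ) ^ (1 - δ) →
      (Nat.card (Hi G q δ) : ℝ) * (Real.log r + δ * Real.log q) ≤
        ((Nat.card G.edgeSet : ℝ) - (Nat.card (G.induce (Hi G q δ)ᶜ).edgeSet : ℝ)) / q →
      (1 - 1 / (q : ℝ)) ^ (Nat.card G.edgeSet) * ((1 - ε) * q) ^ (Nat.card V) ≤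
        (Nat.card (G.Coloring (Fin q)) : ℝ) := by
  obtain ⟨q1, h1⟩ := hF δ ε hδ hδ1 hε hε1
  obtain ⟨q2, h2⟩ := bounded hI hC hN (δ / 2) (ε / 2) (by linarith) (by linarith) (by linarith)
    (by linarith)
  refine ⟨q1 + 2 * q2 + 2, fun q hq V _ G r hG hr hrq hcond => ?_⟩
  classical
  obtain ⟨s, hs2, hsD, hs⟩ := h1 q (by omega)
  have hqr : (1 : ℝ) ≤ q := by exact_mod_cast (by omega : 1 ≤ q)
  have hlog : 0 ≤ Real.log q := Real.log_nonneg hqr
  set H : Set V := Hi G q δ with hH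
  set D : ℝ := (1 - δ) * q * Real.log q with hD
  have hDnn : 0 ≤ D := mul_nonneg (mul_nonneg (by linarith) (by linarith)) hlog
  obtain ⟨hE1, -, hE3⟩ := hE V G H D hDnn
  obtain ⟨hE4, hE5⟩ := hE3 (fun v hv => by
    have : ¬ (D < (Nat.card (G.neighborSet v) : ℝ)) := hv
    exact not_lt.1 this)
  -- replace r by max r 1
  obtain ⟨r', hr'1, hr'c, hr'q, hr'l⟩ : ∃ r' : ℕ, 1 ≤ r' ∧ (G.induce H).Colorable r' ∧
      (r' : ℝ) ≤ (q : ℝ) ^ (1 - δ) ∧ Real.log r' = Real.log r := by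
    rcases Nat.eq_zero_or_pos r with h | h
    · refine ⟨1, le_rfl, hr.mono (by omega), ?_, ?_⟩
      · have : (1 : ℝ) ≤ (q : ℝ) ^ (1 - δ) := Real.one_le_rpow hqr (by linarith)
        simpa using this
      · rw [h]; simp
    · exact ⟨r, h, hr, hrq, rfl⟩
  have hkey := hs r' hr'1 hr'q (Nat.card H) (Nat.card (Hᶜ : Set V))
    (Nat.card G.edgeSet - Nat.card (G.induce Hᶜ).edgeSet) (Nat.card (G.induce Hᶜ).edgeSet)
    (by
      rw [hr'l, Nat.cast_sub hE1]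
      exact hcond)
    (by
      have hl : (0 : ℝ) ≤ (Nat.card (Hᶜ : Set V) : ℝ) := Nat.cast_nonneg _
      have h3 : D ≤ q * Real.log q := by
        rw [hD]
        nlinarith [mul_nonneg (by linarith : (0 : ℝ) ≤ q) hlog]
      have hm : (0 : ℝ) ≤ (Nat.card (G.induce Hᶜ).edgeSet : ℝ) := Nat.cast_nonneg _
      nlinarith [mul_le_mul_of_nonneg_left h3 hl])
  have hb := h2 (q - s) (by omega) (Hᶜ : Set V) (G.induce Hᶜ)
    (hG.comap ⟨(SimpleGraph.Embedding.induce (G := G) Hᶜ).toCopy⟩) (fun S v => (hE5 S v).trans hsD)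
  have hp := hP V G q s (s / r') r' H (Nat.div_mul_le_self s r') (by omega) hr'c
  have hcard : Nat.card H + Nat.card (Hᶜ : Set V) = Nat.card V := by
    have := Nat.card_congr (Equiv.Set.sumCompl H)
    rw [← this, Nat.card_sum]
  rw [Nat.sub_add_cancel hE1, hcard] at hkey
  calc _ ≤ _ := hkey
    _ ≤ ((s / r' : ℕ) : ℝ) ^ (Nat.card H) *
        (Nat.card ((G.induce Hᶜ).Coloring (Fin (q - s))) : ℝ) :=
      mul_le_mul_of_nonneg_left hb (by positivity)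
    _ ≤ _ := by exact_mod_cast hp

/-- chromatic number at most `q^(1/2-2δ)` -/
theorem half (hI : S_IND) (hC : S_CNT) (hN : S_NUM) (hP : S_PAL) (hE : S_EDG) (hF : S_FN)
    (δ ε : ℝ) (hδ : 0 < δ) (hδ1 : δ < 1 / 4) (hε : 0 < ε) (hε1 : ε ≤ 1 / 2) :
    ∃ q0 : ℕ, ∀ q : ℕ, q0 ≤ q → ∀ (V : Type) [Fintype V] (G : SimpleGraph V) (r : ℕ),
      G.CliqueFree 3 → (G.induce (Hi G q δ)).Colorable r →
      (r : ℝ) ≤ (q : ℝ) ^ (1 / 2 - 2 * δ) →
      (1 - 1 / (q : ℝ)) ^ (Nat.card G.edgeSet) * ((1 - ε) * q) ^ (Nat.card V) ≤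
        (Nat.card (G.Coloring (Fin q)) : ℝ) := by
  obtain ⟨q0, h0⟩ := general hI hC hN hP hE hF δ ε hδ (by linarith) hε hε1
  refine ⟨q0 + 1, fun q hq V _ G r hG hr hrq => ?_⟩
  classical
  have hqr : (1 : ℝ) ≤ q := by exact_mod_cast (by omega : 1 ≤ q)
  have hlog : 0 ≤ Real.log q := Real.log_nonneg hqr
  have hlogr : Real.log r ≤ (1 / 2 - 2 * δ) * Real.log q := by
    rcases Nat.eq_zero_or_pos r with h | h
    · rw [h]
      simp only [CharP.cast_eq_zero, Real.log_zero]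
      exact mul_nonneg (by linarith) hlog
    · have hr0 : (0 : ℝ) < r := by exact_mod_cast h
      calc Real.log r ≤ Real.log ((q : ℝ) ^ (1 / 2 - 2 * δ)) := Real.log_le_log hr0 hrq
        _ = _ := Real.log_rpow (by linarith) _
  refine h0 q (by omega) V G r hG hr (hrq.trans ?_) ?_
  · exact Real.rpow_le_rpow_of_exponent_le hqr (by linarith)
  · set D : ℝ := (1 - δ) * q * Real.log q with hD
    have hDnn : 0 ≤ D := mul_nonneg (mul_nonneg (by linarith) (by linarith)) hlog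
    obtain ⟨-, hE2, -⟩ := hE V G (Hi G q δ) D hDnn
    have h2 := hE2 (fun v hv => le_of_lt hv)
    rw [le_div_iff₀ (by linarith)]
    have hh : (0 : ℝ) ≤ (Nat.card (Hi G q δ) : ℝ) := Nat.cast_nonneg _
    have h3 : (Real.log r + δ * Real.log q) * q ≤ D / 2 := by
      rw [hD]
      nlinarith [mul_nonneg (by linarith : (0 : ℝ) ≤ q) hlog,
        mul_le_mul_of_nonneg_right hlogr (by linarith : (0 : ℝ) ≤ q),
        mul_nonneg (mul_nonneg hδ.le (by linarith : (0 : ℝ) ≤ q)) hlog]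
    calc (Nat.card (Hi G q δ) : ℝ) * (Real.log r + δ * Real.log q) * q
        = (Nat.card (Hi G q δ) : ℝ) * ((Real.log r + δ * Real.log q) * q) := by ring
      _ ≤ (Nat.card (Hi G q δ) : ℝ) * (D / 2) := mul_le_mul_of_nonneg_left h3 hh
      _ ≤ _ := by linarith

end Pool.Agent.R301.CT
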