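import Pool.Agent.R301.CT.Stm

/-!
# NUM: the numerical condition of the induction holds
-/

namespace Pool.Agent.R301.CT

open Filter Topology

namespace NumAux

lemma ev (δ ε : ℝ) (hδ : 0 < δ) (hε : 0 < ε) : ∀ᶠ x : ℝ in atTop,
    2 ≤ x ∧ 4 * (x ^ 7 * Real.exp (-δ * x)) < 1 ∧
    1 - ε < (1 - 4 * (x ^ 7 * Real.exp (-δ * x))) * (1 - 1 / x ^ 2) * Real.exp (-(4 / x)) := by
  have t1 : Tendsto (fun x : ℝ => x ^ 7 * Real.exp (-δ * x)) atTop (𝓝 0) := by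
    have h := tendsto_rpow_mul_exp_neg_mul_atTop_nhds_zero 7 δ hδ
    refine h.congr (fun x => ?_)
    norm_num
  have t2 : Tendsto (fun x : ℝ => 4 * (x ^ 7 * Real.exp (-δ * x))) atTop (𝓝 (4 * 0)) :=
    t1.const_mul 4
  have t3 : Tendsto (fun x : ℝ => 1 / x ^ 2) atTop (𝓝 0) :=
    tendsto_const_nhds.div_atTop (tendsto_pow_atTop two_ne_zero)
  have t4 : Tendsto (fun x : ℝ => Real.exp (-(4 / x))) atTop (𝓝 (Real.exp (-0))) := by
    have h : Tendsto (fun x : ℝ => 4 / x) atTop (𝓝 0) :=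
      tendsto_const_nhds.div_atTop tendsto_id
    exact (Real.continuous_exp.tendsto _).comp h.neg
  have t5 := ((tendsto_const_nhds (x := (1 : ℝ))).sub t2).mul
    ((tendsto_const_nhds (x := (1 : ℝ))).sub t3) |>.mul t4
  have h1 : (1 - 4 * 0) * (1 - 0) * Real.exp (-0) = (1 : ℝ) := by
    rw [neg_zero, Real.exp_zero]; norm_num
  rw [h1] at t5
  have h2 : (1 : ℝ) - ε < 1 := by linarith
  have h3 : (4 : ℝ) * 0 < 1 := by norm_num
  filter_upwards [eventually_ge_atTop (2 : ℝ), t2.eventually (gt_mem_nhds h3),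
    t5.eventually (lt_mem_nhds h2)] with x hx1 hx2 hx3
  exact ⟨hx1, hx2, hx3⟩

lemma core (δ ε Q L : ℝ) (D : ℕ) (hδ : 0 < δ) (hε : 0 < ε) (hε2 : ε ≤ 1 / 2)
    (hQ : Real.exp L = Q) (hL : 2 ≤ L) (hD : (D : ℝ) ≤ (1 - δ) * Q * L) :
    D * L ^ 2 / (Q * (1 - 1 / Q) ^ D * (1 - ε) * (Q / L ^ 4)) ≤
      4 * (L ^ 7 * Real.exp (-δ * L)) := by
  have hQpos : 0 < Q := by rw [← hQ]; exact Real.exp_pos _
  have hq1 : 1 + L + L ^ 2 / 2 ≤ Q := by
    rw [← hQ]; exact Real.quadratic_le_exp_of_nonneg (by linarith)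
  have hQ1 : 2 * L ≤ Q - 1 := by nlinarith
  have hQm : 0 < Q - 1 := by linarith
  -- lower bound of the power
  have hp1 : Real.exp (-(1 / (Q - 1))) ≤ 1 - 1 / Q := by
    have h := Real.add_one_le_exp (1 / (Q - 1))
    rw [Real.exp_neg]
    have h2 : 1 / (Q - 1) + 1 = Q / (Q - 1) := by field_simp; ring
    rw [h2] at h
    have h3 : 1 - 1 / Q = (Q / (Q - 1))⁻¹ := by field_simp
    rw [h3]
    exact inv_anti₀ (by positivity) h
  have hp2 : Real.exp (-((1 - δ) * L) - 1 / 2) ≤ (1 - 1 / Q) ^ D := by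
    have h : Real.exp (-(1 / (Q - 1))) ^ D ≤ (1 - 1 / Q) ^ D :=
      pow_le_pow_left₀ (Real.exp_pos _).le hp1 D
    refine le_trans ?_ h
    rw [← Real.exp_nat_mul]
    apply Real.exp_le_exp.mpr
    have h2 : (D : ℝ) / (Q - 1) ≤ (1 - δ) * L + 1 / 2 := by
      rw [div_le_iff₀ hQm]
      nlinarith
    have h3 : (D : ℝ) * -(1 / (Q - 1)) = -((D : ℝ) / (Q - 1)) := by ring
    rw [h3]
    linarith
  have hhalf : (1 / 2 : ℝ) ≤ Q * Real.exp (-δ * L) * (1 - 1 / Q) ^ D := by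
    have h1 : Q * Real.exp (-δ * L) * Real.exp (-((1 - δ) * L) - 1 / 2) = Real.exp (-(1 / 2)) := by
      rw [← hQ, ← Real.exp_add, ← Real.exp_add]
      congr 1; ring
    have h2 : (1 / 2 : ℝ) ≤ Real.exp (-(1 / 2)) := by
      have := Real.add_one_le_exp (-(1 / 2) : ℝ)
      linarith
    calc (1 / 2 : ℝ) ≤ Real.exp (-(1 / 2)) := h2
      _ = Q * Real.exp (-δ * L) * Real.exp (-((1 - δ) * L) - 1 / 2) := h1.symm
      _ ≤ _ := mul_le_mul_of_nonneg_left hp2 (by positivity)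
  have hpos : 0 < (1 - 1 / Q) ^ D := lt_of_lt_of_le (Real.exp_pos _) hp2
  have hε1 : (0 : ℝ) < 1 - ε := by linarith
  have hLpos : 0 < L := by linarith
  rw [div_le_iff₀ (by positivity)]
  have hDQ : (D : ℝ) ≤ Q * L := by
    have : 0 ≤ δ * (Q * L) := by positivity
    nlinarith
  have e1 : 4 * (L ^ 7 * Real.exp (-δ * L)) * (Q * (1 - 1 / Q) ^ D * (1 - ε) * (Q / L ^ 4)) =
      4 * L ^ 3 * Q * (1 - ε) * (Q * Real.exp (-δ * L) * (1 - 1 / Q) ^ D) := by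
    field_simp
  rw [e1]
  calc (D : ℝ) * L ^ 2 ≤ Q * L * L ^ 2 := mul_le_mul_of_nonneg_right hDQ (by positivity)
    _ = 4 * L ^ 3 * Q * (1 / 2) * (1 / 2) := by ring
    _ ≤ 4 * L ^ 3 * Q * (1 - ε) * (1 / 2) := by
        apply mul_le_mul_of_nonneg_right _ (by norm_num)
        apply mul_le_mul_of_nonneg_left _ (by positivity)
        linarith
    _ ≤ _ := mul_le_mul_of_nonneg_left hhalf (by positivity)

lemma expo (Q L d : ℝ) (hQpos : 0 < Q) (hL : 2 ≤ L) (hd0 : 0 ≤ d) (hd : d ≤ Q * L) :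
    (1 + 1 / L ^ 2) * d / (Q - Q / L ^ 2) ≤ d / Q + 4 / L := by
  have hLpos : 0 < L := by linarith
  have hL2 : 4 ≤ L ^ 2 := by nlinarith
  have hden : 0 < L ^ 2 - 1 := by linarith
  have e : (1 + 1 / L ^ 2) * d / (Q - Q / L ^ 2) = d / Q + (d / Q) * (2 / (L ^ 2 - 1)) := by
    have h1 : Q - Q / L ^ 2 ≠ 0 := by
      have : Q - Q / L ^ 2 = Q * (L ^ 2 - 1) / L ^ 2 := by field_simp
      rw [this]; positivity
    have h2 : L ^ 2 - 1 ≠ 0 := hden.ne'
    have h3 : Q - Q / L ^ 2 = Q * (L ^ 2 - 1) / L ^ 2 := by field_simp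
    rw [h3]
    field_simp
    ring
  rw [e]
  have h1 : d / Q ≤ L := by rw [div_le_iff₀ hQpos]; linarith
  have h2 : (d / Q) * (2 / (L ^ 2 - 1)) ≤ L * (2 / (L ^ 2 - 1)) :=
    mul_le_mul_of_nonneg_right h1 (by positivity)
  have h3 : L * (2 / (L ^ 2 - 1)) ≤ 4 / L := by
    rw [mul_div_assoc', div_le_div_iff₀ hden hLpos]
    nlinarith
  linarith

end NumAux

open NumAux in
/-- NUM: the numerical condition holds -/
theorem num : S_NUM := by
  intro δ ε hδ hε hε2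
  have hev := (Real.tendsto_log_atTop.comp tendsto_natCast_atTop_atTop).eventually (ev δ ε hδ hε)
  have hev2 : ∀ᶠ q : ℕ in atTop, 1 ≤ q := eventually_ge_atTop 1
  obtain ⟨q0, hq0⟩ := eventually_atTop.mp (hev.and hev2)
  refine ⟨q0, fun q hq D hD => ?_⟩
  obtain ⟨⟨hL, hsm, hmain⟩, hq1⟩ := hq0 q hq
  simp only [Function.comp_apply] at hL hsm hmain
  set Q : ℝ := (q : ℝ) with hQdef
  set L : ℝ := Real.log Q with hLdef
  have hQpos : 0 < Q := by rw [hQdef]; exact_mod_cast hq1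
  have hexp : Real.exp L = Q := Real.exp_log hQpos
  have hLpos : 0 < L := by linarith
  have hL2 : 4 ≤ L ^ 2 := by nlinarith
  have htb : L ^ 2 * (Q / L ^ 4) = Q / L ^ 2 := by field_simp
  have htbq : Q / L ^ 2 < Q := by
    rw [div_lt_iff₀ (by positivity)]
    nlinarith
  refine ⟨L ^ 2, Q / L ^ 4, by linarith, by positivity, by rw [htb]; exact htbq, ?_⟩
  intro d hd
  have hcore := core δ ε Q L D hδ hε hε2 hexp hL hD
  have hdD : (d : ℝ) ≤ D := by exact_mod_cast hd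
  have hDQ : (D : ℝ) ≤ Q * L := by
    have : 0 ≤ δ * (Q * L) := by positivity
    nlinarith
  have hexpo := expo Q L d hQpos hL (by positivity) (hdD.trans hDQ)
  rw [htb]
  set E : ℝ := D * L ^ 2 / (Q * (1 - 1 / Q) ^ D * (1 - ε) * (Q / L ^ 4)) with hE
  set e0 : ℝ := 4 * (L ^ 7 * Real.exp (-δ * L)) with he0
  have hQ1 : 1 ≤ Q := by rw [hQdef]; exact_mod_cast hq1
  have hpow : (1 - 1 / Q) ^ d ≤ Real.exp (-(d / Q)) := by
    have h1 : 1 - 1 / Q ≤ Real.exp (-(1 / Q)) := by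
      have := Real.add_one_le_exp (-(1 / Q))
      linarith
    have h0 : 0 ≤ 1 - 1 / Q := by
      rw [sub_nonneg, div_le_one hQpos]; exact hQ1
    calc (1 - 1 / Q) ^ d ≤ Real.exp (-(1 / Q)) ^ d := pow_le_pow_left₀ h0 h1 d
      _ = Real.exp (-(d / Q)) := by
        rw [← Real.exp_nat_mul]; congr 1; ring
  have hfrac : (Q - Q / L ^ 2) / Q = 1 - 1 / L ^ 2 := by field_simp
  rw [hfrac]
  have hy : 0 < 1 - 1 / L ^ 2 := by
    rw [sub_pos, div_lt_one (by positivity)]; linarith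
  have hexp2 : Real.exp (-(d / Q)) * Real.exp (-(4 / L)) ≤
      Real.exp (-((1 + 1 / L ^ 2) * d / (Q - Q / L ^ 2))) := by
    rw [← Real.exp_add]
    apply Real.exp_le_exp.mpr
    linarith
  have hε1 : (0 : ℝ) < 1 - ε := by linarith
  calc (1 - ε) * (1 - 1 / Q) ^ d ≤ (1 - ε) * Real.exp (-(d / Q)) :=
        mul_le_mul_of_nonneg_left hpow hε1.le
    _ ≤ ((1 - e0) * (1 - 1 / L ^ 2) * Real.exp (-(4 / L))) * Real.exp (-(d / Q)) :=
        mul_le_mul_of_nonneg_right hmain.le (Real.exp_pos _).le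
    _ = (1 - e0) * ((1 - 1 / L ^ 2) * (Real.exp (-(d / Q)) * Real.exp (-(4 / L)))) := by ring
    _ ≤ (1 - e0) * ((1 - 1 / L ^ 2) *
          Real.exp (-((1 + 1 / L ^ 2) * d / (Q - Q / L ^ 2)))) := by
        apply mul_le_mul_of_nonneg_left _ (by linarith)
        exact mul_le_mul_of_nonneg_left hexp2 hy.le
    _ ≤ (1 - E) * ((1 - 1 / L ^ 2) *
          Real.exp (-((1 + 1 / L ^ 2) * d / (Q - Q / L ^ 2)))) := by
        apply mul_le_mul_of_nonneg_right _ (by positivity)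
        linarith

end Pool.Agent.R301.CT
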