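import Pool.Agent.R301.CT.Stm

/-! # CT-PAL: splitting of the palette (helper466) -/

namespace Pool.Agent.R301.CT

namespace PalAux

open Classical in
/-- the combined colouring, as a function -/
noncomputable def fn {V : Type} {G : SimpleGraph V} {q s p r : ℕ} {H : Set V}
    (hpr : p * r ≤ s) (hsq : s ≤ q) (col : (G.induce H).Coloring (Fin r))
    (x : H → Fin p) (C : (G.induce Hᶜ).Coloring (Fin (q - s))) (v : V) : Fin q :=
  if h : v ∈ H then ⟨(col ⟨v, h⟩).val * p + (x ⟨v, h⟩).val, by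
    have h1 := (col ⟨v, h⟩).isLt
    have h2 := (x ⟨v, h⟩).isLt
    have h3 : ((col ⟨v, h⟩).val + 1) * p ≤ r * p := Nat.mul_le_mul_right p h1
    have h4 : p * r = r * p := Nat.mul_comm p r
    nlinarith⟩
  else ⟨s + (C ⟨v, h⟩).val, by
    have h1 := (C ⟨v, h⟩).isLt
    omega⟩

theorem fn_in {V : Type} {G : SimpleGraph V} {q s p r : ℕ} {H : Set V}
    (hpr : p * r ≤ s) (hsq : s ≤ q) (col : (G.induce H).Coloring (Fin r))
    (x : H → Fin p) (C : (G.induce Hᶜ).Coloring (Fin (q - s))) (v : V) (h : v ∈ H) :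
    (fn hpr hsq col x C v).val = (col ⟨v, h⟩).val * p + (x ⟨v, h⟩).val := by
  unfold fn
  rw [dif_pos h]

theorem fn_out {V : Type} {G : SimpleGraph V} {q s p r : ℕ} {H : Set V}
    (hpr : p * r ≤ s) (hsq : s ≤ q) (col : (G.induce H).Coloring (Fin r))
    (x : H → Fin p) (C : (G.induce Hᶜ).Coloring (Fin (q - s))) (v : V) (h : v ∉ H) :
    (fn hpr hsq col x C v).val = s + (C ⟨v, h⟩).val := by
  unfold fn
  rw [dif_neg h]

theorem fn_lt {V : Type} {G : SimpleGraph V} {q s p r : ℕ} {H : Set V}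
    (hpr : p * r ≤ s) (hsq : s ≤ q) (col : (G.induce H).Coloring (Fin r))
    (x : H → Fin p) (C : (G.induce Hᶜ).Coloring (Fin (q - s))) (v : V) (h : v ∈ H) :
    (fn hpr hsq col x C v).val < s := by
  rw [fn_in hpr hsq col x C v h]
  have h1 := (col ⟨v, h⟩).isLt
  have h2 := (x ⟨v, h⟩).isLt
  have h3 : ((col ⟨v, h⟩).val + 1) * p ≤ r * p := Nat.mul_le_mul_right p h1
  have h4 : p * r = r * p := Nat.mul_comm p r
  nlinarith

theorem digits {p a b x y : ℕ} (hx : x < p) (hy : y < p) (h : a * p + x = b * p + y) :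
    a = b ∧ x = y := by
  have hp : 0 < p := by omega
  have h1 : (a * p + x) / p = a := by
    rw [Nat.mul_comm, Nat.mul_add_div hp, Nat.div_eq_of_lt hx, Nat.add_zero]
  have h2 : (b * p + y) / p = b := by
    rw [Nat.mul_comm, Nat.mul_add_div hp, Nat.div_eq_of_lt hy, Nat.add_zero]
  have hab : a = b := by rw [← h1, ← h2, h]
  refine ⟨hab, ?_⟩
  rw [hab] at h
  omega

/-- the combined colouring -/
noncomputable def colr {V : Type} {G : SimpleGraph V} {q s p r : ℕ} {H : Set V}
    (hpr : p * r ≤ s) (hsq : s ≤ q) (col : (G.induce H).Coloring (Fin r))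
    (x : H → Fin p) (C : (G.induce Hᶜ).Coloring (Fin (q - s))) : G.Coloring (Fin q) :=
  SimpleGraph.Coloring.mk (fn hpr hsq col x C) (by
    intro u w huw heq
    have hv := congrArg Fin.val heq
    by_cases hu : u ∈ H <;> by_cases hw : w ∈ H
    · rw [fn_in hpr hsq col x C u hu, fn_in hpr hsq col x C w hw] at hv
      have h1 := (digits (x ⟨u, hu⟩).isLt (x ⟨w, hw⟩).isLt hv).1
      have hadj : (G.induce H).Adj ⟨u, hu⟩ ⟨w, hw⟩ := by
        rw [SimpleGraph.induce_adj]
        exact huw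
      exact col.valid hadj (Fin.ext h1)
    · have h1 := fn_lt hpr hsq col x C u hu
      rw [hv, fn_out hpr hsq col x C w hw] at h1
      omega
    · have h1 := fn_lt hpr hsq col x C w hw
      rw [← hv, fn_out hpr hsq col x C u hu] at h1
      omega
    · rw [fn_out hpr hsq col x C u hu, fn_out hpr hsq col x C w hw] at hv
      have hadj : (G.induce Hᶜ).Adj ⟨u, hu⟩ ⟨w, hw⟩ := by
        rw [SimpleGraph.induce_adj]
        exact huw
      exact C.valid hadj (Fin.ext (by omega)))

theorem colr_apply {V : Type} {G : SimpleGraph V} {q s p r : ℕ} {H : Set V}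
    (hpr : p * r ≤ s) (hsq : s ≤ q) (col : (G.induce H).Coloring (Fin r))
    (x : H → Fin p) (C : (G.induce Hᶜ).Coloring (Fin (q - s))) (v : V) :
    colr hpr hsq col x C v = fn hpr hsq col x C v := rfl

end PalAux

open PalAux

theorem pal : S_PAL := by
  intro V _ _ G q s p r H hpr hsq hcol
  obtain ⟨col⟩ := hcol
  have hfin : Finite (G.Coloring (Fin q)) := DFunLike.finite _
  have e1 : p ^ (Nat.card H) = Nat.card (H → Fin p) := by
    rw [Nat.card_fun, Nat.card_fin]
  rw [e1, ← Nat.card_prod]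
  refine Nat.card_le_card_of_injective
    (fun z : (H → Fin p) × (G.induce Hᶜ).Coloring (Fin (q - s)) => colr hpr hsq col z.1 z.2) ?_
  rintro ⟨x, C⟩ ⟨x', C'⟩ heq
  have hpt : ∀ v : V, fn hpr hsq col x C v = fn hpr hsq col x' C' v := by
    intro v
    have := DFunLike.congr_fun heq v
    simpa only [colr_apply] using this
  have hx : x = x' := by
    funext v
    have h1 := congrArg Fin.val (hpt v.1)
    rw [fn_in hpr hsq col x C v.1 v.2, fn_in hpr hsq col x' C' v.1 v.2] at h1
    exact Fin.ext (digits (x ⟨v.1, v.2⟩).isLt (x' ⟨v.1, v.2⟩).isLt h1).2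
  have hC : C = C' := by
    apply DFunLike.ext
    intro v
    have h1 := congrArg Fin.val (hpt v.1)
    rw [fn_out hpr hsq col x C v.1 v.2, fn_out hpr hsq col x' C' v.1 v.2] at h1
    exact Fin.ext (Nat.add_left_cancel h1)
  rw [hx, hC]

end Pool.Agent.R301.CT
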