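import Mathlib

/-!
# Counting colourings of triangle-free graphs of small chromatic number: exact statements

`Pr G q S` : functions `V → Fin q` that are proper on the edges inside `S` (values outside `S`
are free).  See NOTES.md in this folder.
-/

namespace Pool.Agent.R301.CT

open Finset

section defs

variable {V : Type} [Fintype V] [DecidableEq V]

open Classical in
/-- functions `V → Fin q` which are proper on the edges inside `S` -/
noncomputable def Pr (G : SimpleGraph V) (q : ℕ) (S : Finset V) : Finset (V → Fin q) :=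
  univ.filter (fun f => ∀ u ∈ S, ∀ w ∈ S, G.Adj u w → f u ≠ f w)

open Classical in
/-- neighbours of `v` in `S` -/
noncomputable def nb (G : SimpleGraph V) (S : Finset V) (v : V) : Finset V :=
  S.filter (fun w => G.Adj v w)

open Classical in
/-- colours not used by the neighbours of `u` in `S` -/
noncomputable def av (G : SimpleGraph V) (q : ℕ) (S : Finset V) (f : V → Fin q) (u : V) :
    Finset (Fin q) :=
  univ.filter (fun c => ∀ w ∈ nb G S u, f w ≠ c)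

end defs

/-- AM: arithmetic-geometric mean -/
def S_AM : Prop :=
  ∀ (V : Type) [DecidableEq V] (N : Finset V) (q : ℕ) (L : V → Finset (Fin q)) (t b : ℝ),
    2 ≤ t → (∀ u ∈ N, (L u).Nonempty) →
    ((N.filter (fun u => ((L u).card : ℝ) ≤ t)).card : ℝ) ≤ b → t * b < q →
    (((q : ℝ) - t * b) / q * Real.exp (-((1 + 1 / t) * N.card / ((q : ℝ) - t * b)))) *
        (q * ∏ u ∈ N, ((L u).card : ℝ)) ≤
      ∑ c : Fin q, ∏ u ∈ N, (((L u).erase c).card : ℝ)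

/-- FIB: conditional independence of the colours of the neighbours of `v` -/
def S_FIB : Prop :=
  ∀ (V : Type) [Fintype V] [DecidableEq V] (G : SimpleGraph V) (q : ℕ) (S : Finset V) (v : V),
    G.CliqueFree 3 → v ∉ S → ∀ ψ : (V → Fin q) → ℝ,
    (∀ f f' : V → Fin q, (∀ x, x ∉ nb G S v → x ≠ v → f x = f' x) → ψ f = ψ f') →
    (∀ f : V → Fin q, (∀ u ∈ nb G S v, (av G q S f u).Nonempty) →
      ψ f * (q * ∏ u ∈ nb G S v, ((av G q S f u).card : ℝ)) ≤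
        ∑ c : Fin q, ∏ u ∈ nb G S v, (((av G q S f u).erase c).card : ℝ)) →
    ∑ f ∈ Pr G q S, ψ f ≤ ((Pr G q (insert v S)).card : ℝ)

/-- BAD: few colourings have a short list at `u` -/
def S_BAD : Prop :=
  ∀ (V : Type) [Fintype V] [DecidableEq V] (G : SimpleGraph V) (q : ℕ) (S : Finset V) (u : V)
    (t : ℝ), u ∈ S → 0 ≤ t →
    (q : ℝ) * (((Pr G q S).filter (fun f => ((av G q S f u).card : ℝ) ≤ t)).card : ℝ) ≤
      t * ((Pr G q (S.erase u)).card : ℝ)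

/-- the numerical condition of the induction -/
def NC (q D : ℕ) (ε : ℝ) : Prop :=
  ∃ t b : ℝ, 2 ≤ t ∧ 0 < b ∧ t * b < q ∧ ∀ d : ℕ, d ≤ D →
    (1 - ε) * (1 - 1 / (q : ℝ)) ^ d ≤
      (1 - D * t / (q * (1 - 1 / (q : ℝ)) ^ D * (1 - ε) * b)) *
        (((q : ℝ) - t * b) / q * Real.exp (-((1 + 1 / t) * d / ((q : ℝ) - t * b))))

/-- IND: the induction -/
def S_IND : Prop :=
  ∀ (V : Type) [Fintype V] [DecidableEq V] (G : SimpleGraph V) (q D : ℕ) (ε : ℝ),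
    G.CliqueFree 3 → 0 < ε → ε ≤ 1 / 2 → 2 ≤ q → (∀ S v, (nb G S v).card ≤ D) → NC q D ε →
    ∀ (S : Finset V) (v : V), v ∉ S →
      (1 - ε) * (1 - 1 / (q : ℝ)) ^ (nb G S v).card * ((Pr G q S).card : ℝ) ≤
        ((Pr G q (insert v S)).card : ℝ)

/-- CNT: from ratios to the number of colourings -/
def S_CNT : Prop :=
  ∀ (V : Type) [Fintype V] [DecidableEq V] (G : SimpleGraph V) (q : ℕ) (ε : ℝ),
    0 ≤ ε → ε ≤ 1 → 1 ≤ q →
    (∀ (S : Finset V) (v : V), v ∉ S →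
      (1 - ε) * (1 - 1 / (q : ℝ)) ^ (nb G S v).card * ((Pr G q S).card : ℝ) ≤
        ((Pr G q (insert v S)).card : ℝ)) →
    (1 - 1 / (q : ℝ)) ^ (Nat.card G.edgeSet) * ((1 - ε) * q) ^ (Nat.card V) ≤
      (Nat.card (G.Coloring (Fin q)) : ℝ)

/-- NUM: the numerical condition holds -/
def S_NUM : Prop :=
  ∀ δ ε : ℝ, 0 < δ → 0 < ε → ε ≤ 1 / 2 → ∃ q0 : ℕ, ∀ q : ℕ, q0 ≤ q → ∀ D : ℕ,
    (D : ℝ) ≤ (1 - δ) * q * Real.log q → NC q D ε

/-- PAL: splitting of the palette -/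
def S_PAL : Prop :=
  ∀ (V : Type) [Fintype V] [DecidableEq V] (G : SimpleGraph V) (q s p r : ℕ) (H : Set V),
    p * r ≤ s → s ≤ q → (G.induce H).Colorable r →
    p ^ (Nat.card H) * Nat.card ((G.induce Hᶜ).Coloring (Fin (q - s))) ≤
      Nat.card (G.Coloring (Fin q))

/-- EDG: counting edges; `Nat.card G.edgeSet - Nat.card (G.induce Hᶜ).edgeSet` is the number of
edges meeting `H` -/
def S_EDG : Prop :=
  ∀ (V : Type) [Fintype V] [DecidableEq V] (G : SimpleGraph V) (H : Set V) (D : ℝ), 0 ≤ D →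
    Nat.card (G.induce Hᶜ).edgeSet ≤ Nat.card G.edgeSet ∧
    ((∀ v ∈ H, D ≤ (Nat.card (G.neighborSet v) : ℝ)) →
      (Nat.card H : ℝ) * D ≤
        2 * ((Nat.card G.edgeSet : ℝ) - (Nat.card (G.induce Hᶜ).edgeSet : ℝ))) ∧
    ((∀ v ∉ H, (Nat.card (G.neighborSet v) : ℝ) ≤ D) →
      2 * (Nat.card (G.induce Hᶜ).edgeSet : ℝ) ≤ (Nat.card (Hᶜ : Set V) : ℝ) * D ∧
      ∀ (S : Finset (Hᶜ : Set V)) (v : (Hᶜ : Set V)), ((nb (G.induce Hᶜ) S v).card : ℝ) ≤ D)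

/-- FN: the final numerical comparison; `mH` edges meet `H`, `mL` edges do not, `h = |H|`,
`l = |Hᶜ|` -/
def S_FN : Prop :=
  ∀ δ ε : ℝ, 0 < δ → δ < 1 → 0 < ε → ε ≤ 1 / 2 → ∃ q0 : ℕ, ∀ q : ℕ, q0 ≤ q → ∃ s : ℕ,
    2 * s ≤ q ∧
    (1 - δ) * q * Real.log q ≤ (1 - δ / 2) * ((q - s : ℕ) : ℝ) * Real.log ((q - s : ℕ) : ℝ) ∧
    ∀ r : ℕ, 1 ≤ r → (r : ℝ) ≤ (q : ℝ) ^ (1 - δ) → ∀ h l mH mL : ℕ,
      (h : ℝ) * (Real.log r + δ * Real.log q) ≤ mH / q → (mL : ℝ) ≤ l * (q * Real.log q) →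
      (1 - 1 / (q : ℝ)) ^ (mH + mL) * ((1 - ε) * q) ^ (h + l) ≤
        ((s / r : ℕ) : ℝ) ^ h *
          ((1 - 1 / ((q - s : ℕ) : ℝ)) ^ mL * ((1 - ε / 2) * ((q - s : ℕ) : ℝ)) ^ l)

end Pool.Agent.R301.CT
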